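import Pool.Agent.Q298.Mim.Band

/-!
Band limited Schwartz functions on the line.
-/

set_option autoImplicit false

namespace Q298.Gap

open MeasureTheory Filter Topology ComplexConjugate Real Q298.Mim
open scoped FourierTransform SchwartzMap ContDiff

/-- `f` is a Schwartz function whose Fourier transform vanishes outside `[-b, b]`. -/
def BL (b : ℝ) (f : ℝ → ℂ) : Prop :=
  ∃ F : 𝓢(ℝ, ℂ), (∀ x, F x = f x) ∧ ∀ ξ, b < |ξ| → (𝓕 F) ξ = 0

theorem BL.congr {b : ℝ} {f g : ℝ → ℂ} (h : BL b f) (hfg : ∀ x, f x = g x) : BL b g := by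
  obtain ⟨F, h1, h2⟩ := h
  exact ⟨F, fun x => (h1 x).trans (hfg x), h2⟩

theorem BL.mono {a b : ℝ} {f : ℝ → ℂ} (h : BL a f) (hab : a ≤ b) : BL b f := by
  obtain ⟨F, h1, h2⟩ := h
  exact ⟨F, h1, fun ξ hξ => h2 ξ (lt_of_le_of_lt hab hξ)⟩

theorem BL.add {b : ℝ} {f g : ℝ → ℂ} (hf : BL b f) (hg : BL b g) : BL b (fun x => f x + g x) := by
  obtain ⟨F, h1, h2⟩ := hf
  obtain ⟨G, h3, h4⟩ := hg
  refine ⟨F + G, fun x => ?_, fun ξ hξ => ?_⟩
  · rw [add_apply, h1, h3]
  · rw [FourierTransform.fourier_add, add_apply, h2 ξ hξ, h4 ξ hξ, add_zero]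

theorem BL.const_mul {b : ℝ} {f : ℝ → ℂ} (hf : BL b f) (c : ℂ) : BL b (fun x => c * f x) := by
  obtain ⟨F, h1, h2⟩ := hf
  refine ⟨c • F, fun x => ?_, fun ξ hξ => ?_⟩
  · rw [smul_apply, h1, smul_eq_mul]
  · rw [FourierTransform.fourier_smul, smul_apply, h2 ξ hξ, smul_zero]

theorem BL.zero (b : ℝ) : BL b (fun _ => 0) := by
  refine ⟨0, fun x => rfl, fun ξ hξ => ?_⟩
  have : 𝓕 (0 : 𝓢(ℝ, ℂ)) = 0 := FourierTransform.fourier_zero
  rw [this]
  rfl

theorem BL.sum {ι : Type*} (s : Finset ι) {b : ℝ} (f : ι → ℝ → ℂ) (hf : ∀ i ∈ s, BL b (f i)) :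
    BL b (fun x => ∑ i ∈ s, f i x) := by
  classical
  induction s using Finset.induction_on with
  | empty => simpa using BL.zero b
  | insert a s ha ih =>
    simp_rw [Finset.sum_insert ha]
    exact (hf a (Finset.mem_insert_self _ _)).add
      (ih fun i hi => hf i (Finset.mem_insert_of_mem hi))

theorem integral_fourier_mul (f g : ℝ → ℂ) (hf : Integrable f) (hg : Integrable g) :
    ∫ ξ, 𝓕 f ξ * g ξ = ∫ x, f x * 𝓕 g x := by
  simpa using! VectorFourier.integral_bilin_fourierIntegral_eq_flip (ContinuousLinearMap.mul ℂ ℂ)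
    (L := innerₗ ℝ) continuous_fourierChar continuous_inner hf hg

theorem BL.mul {a b : ℝ} {f g : ℝ → ℂ} (hf : BL a f) (hg : BL b g) :
    BL (a + b) (fun x => f x * g x) := by
  obtain ⟨F, h1, h2⟩ := hf
  obtain ⟨G, h3, h4⟩ := hg
  refine ⟨SchwartzMap.pairing (ContinuousLinearMap.mul ℂ ℂ) F G, fun x => ?_, fun ξ hξ => ?_⟩
  · rw [SchwartzMap.pairing_apply_apply, h1, h3, ContinuousLinearMap.mul_apply']
  · rw [SchwartzMap.fourier_coe, fourier_ee]
    set F' : 𝓢(ℝ, ℂ) := 𝓕 F with hF'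
    have hFF : F = 𝓕⁻ F' := (FourierTransform.fourierInv_fourier_eq F).symm
    have hGI : Integrable (fun x : ℝ => ee (x * ξ) * G (-x)) := by
      refine (G.integrable.comp_neg).bdd_mul (c := 1) ?_ ?_
      · exact (continuous_ee.comp (continuous_mul_const ξ)).aestronglyMeasurable
      · exact ae_of_all _ fun t => (norm_ee _).le
    have h5 : ∫ x, ee (-(x * ξ)) * (SchwartzMap.pairing (ContinuousLinearMap.mul ℂ ℂ) F G) x =
        ∫ x, (𝓕 (F' : ℝ → ℂ)) x * (ee (x * ξ) * G (-x)) := by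
      rw [← integral_neg_eq_self]
      congr 1
      ext x
      rw [SchwartzMap.pairing_apply_apply, ContinuousLinearMap.mul_apply', hFF,
        SchwartzMap.fourierInv_coe, Real.fourierInv_eq_fourier_neg, neg_neg, neg_mul, neg_neg]
      ring
    rw [h5, integral_fourier_mul _ _ F'.integrable hGI]
    apply integral_eq_zero_of_ae
    apply ae_of_all
    intro s
    simp only [Pi.zero_apply]
    by_cases hs : a < |s|
    · rw [h2 s hs, zero_mul]
    · have h6 : 𝓕 (fun x : ℝ => ee (x * ξ) * G (-x)) s = (𝓕 G) (ξ - s) := by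
        rw [SchwartzMap.fourier_coe, fourier_ee, fourier_ee, ← integral_neg_eq_self]
        congr 1
        ext x
        rw [neg_neg, ← mul_assoc, ← ee_add]
        congr 2
        ring
      rw [h6, h4, mul_zero]
      have h7 := abs_sub_abs_le_abs_sub ξ s
      linarith

theorem BL.scale {b : ℝ} {f : ℝ → ℂ} (hf : BL b f) (a : ℝ) (ha : 0 < a) :
    BL (a * b) (fun x => f (a * x)) := by
  obtain ⟨F, h1, h2⟩ := hf
  set e : ℝ ≃L[ℝ] ℝ := ContinuousLinearEquiv.unitsEquivAut ℝ (Units.mk0 a ha.ne') with he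
  have hea : ∀ x, e x = a * x := by
    intro x
    rw [he, ContinuousLinearEquiv.unitsEquivAut_apply, Units.val_mk0, mul_comm]
  refine ⟨SchwartzMap.compCLMOfContinuousLinearEquiv ℂ e F, fun x => ?_, fun ξ hξ => ?_⟩
  · rw [SchwartzMap.compCLMOfContinuousLinearEquiv_apply, Function.comp_apply, hea, h1]
  · rw [SchwartzMap.fourier_coe, fourier_ee]
    have h3 : ∀ x, ee (-(x * ξ)) * (SchwartzMap.compCLMOfContinuousLinearEquiv ℂ e F) x =
        (fun y => ee (-(y * (ξ / a))) * F y) (a * x) := by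
      intro x
      simp only
      rw [SchwartzMap.compCLMOfContinuousLinearEquiv_apply, Function.comp_apply, hea]
      congr 2
      field_simp
    simp_rw [h3]
    rw [Measure.integral_comp_mul_left (fun y => ee (-(y * (ξ / a))) * F y), ← fourier_ee,
      ← SchwartzMap.fourier_coe, h2, smul_zero]
    rw [abs_div, abs_of_pos ha, lt_div_iff₀ ha]
    linarith

theorem BL.shift {b : ℝ} {f : ℝ → ℂ} (hf : BL b f) (a : ℝ) : BL b (fun x => f (x - a)) := by
  obtain ⟨F, h1, h2⟩ := hf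
  refine ⟨F.compSubConstCLM ℂ a, fun x => ?_, fun ξ hξ => ?_⟩
  · rw [SchwartzMap.compSubConstCLM_apply, h1]
  · rw [SchwartzMap.fourier_coe, fourier_ee, ← integral_add_right_eq_self _ a]
    have h3 : ∀ x, ee (-((x + a) * ξ)) * (F.compSubConstCLM ℂ a) (x + a) =
        ee (-(a * ξ)) * (ee (-(x * ξ)) * F x) := by
      intro x
      rw [SchwartzMap.compSubConstCLM_apply, add_sub_cancel_right, ← mul_assoc, ← ee_add]
      congr 2
      ring
    simp_rw [h3]
    rw [integral_const_mul, ← fourier_ee, ← SchwartzMap.fourier_coe, h2 ξ hξ, mul_zero]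

theorem BL.continuous {b : ℝ} {f : ℝ → ℂ} (hf : BL b f) : Continuous f := by
  obtain ⟨F, h1, _⟩ := hf
  have : f = F := funext fun x => (h1 x).symm
  rw [this]
  exact F.continuous

theorem BL.decay {b : ℝ} {f : ℝ → ℂ} (hf : BL b f) :
    ∃ C : ℝ, 0 ≤ C ∧ ∀ x, ‖f x‖ ≤ C / (1 + x ^ 2) := by
  obtain ⟨F, h1, _⟩ := hf
  obtain ⟨C0, hC0, h0⟩ := F.decay 0 0
  obtain ⟨C2, hC2, h2⟩ := F.decay 2 0
  refine ⟨C0 + C2, by linarith, fun x => ?_⟩
  rw [← h1]
  rw [le_div_iff₀ (by positivity)]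
  have e0 := h0 x
  have e2 := h2 x
  rw [norm_iteratedFDeriv_zero] at e0 e2
  rw [pow_zero, one_mul] at e0
  rw [Real.norm_eq_abs, sq_abs] at e2
  nlinarith

theorem BL.integrable {b : ℝ} {f : ℝ → ℂ} (hf : BL b f) : Integrable f := by
  obtain ⟨F, h1, _⟩ := hf
  have : f = F := funext fun x => (h1 x).symm
  rw [this]
  exact F.integrable

theorem BL.integrable_sq {b : ℝ} {f : ℝ → ℂ} (hf : BL b f) : Integrable (fun x => ‖f x‖ ^ 2) := by
  obtain ⟨F, h1, _⟩ := hf
  have : f = F := funext fun x => (h1 x).symm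
  rw [this]
  exact (memLp_two_iff_integrable_sq_norm F.continuous.aestronglyMeasurable).mp (F.memLp 2)

/-- The function is the inverse Fourier transform of a smooth function with support in
`[-b, b]`. -/
theorem BL.exists_inv {b : ℝ} {f : ℝ → ℂ} (hf : BL b f) :
    ∃ W : ℝ → ℂ, ContDiff ℝ ∞ W ∧ (∀ t, b < |t| → W t = 0) ∧ Integrable W ∧
      ∀ x, 𝓕⁻ W x = f x := by
  obtain ⟨F, h1, h2⟩ := hf
  set F' : 𝓢(ℝ, ℂ) := 𝓕 F with hF'
  refine ⟨F', F'.smooth', h2, F'.integrable, fun x => ?_⟩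
  rw [← h1 x, ← SchwartzMap.fourierInv_coe, hF', FourierTransform.fourierInv_fourier_eq F]

/-- Bernstein type bound: the value at a point is bounded by the norm. -/
theorem BL.norm_sq_le {b : ℝ} (hb : 0 ≤ b) {f : ℝ → ℂ} (hf : BL b f) (x : ℝ) :
    ‖f x‖ ^ 2 ≤ 2 * b * ∫ y, ‖f y‖ ^ 2 := by
  obtain ⟨F, h1, h2⟩ := hf
  have hf1 : f = F := funext fun x => (h1 x).symm
  rw [hf1]
  rw [← SchwartzMap.integral_norm_sq_fourier]
  set W : 𝓢(ℝ, ℂ) := 𝓕 F with hW
  have h3 : F x = ∫ t, ee (t * x) * W t := by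
    rw [← fourierInv_ee, ← SchwartzMap.fourierInv_coe, hW, FourierTransform.fourierInv_fourier_eq F]
  have hWI : Integrable (fun t => ‖W t‖ ^ 2) :=
    (memLp_two_iff_integrable_sq_norm W.continuous.aestronglyMeasurable).mp (W.memLp 2)
  have h4 : ‖F x‖ ≤ ∫ t in Set.Icc (-b) b, ‖W t‖ := by
    rw [h3]
    have h5 : ∫ t, ee (t * x) * W t = ∫ t in Set.Icc (-b) b, ee (t * x) * W t := by
      symm
      apply setIntegral_eq_integral_of_forall_compl_eq_zero
      intro t ht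
      rw [h2, mul_zero]
      by_contra hcon
      rw [not_lt] at hcon
      exact ht (abs_le.mp hcon)
    rw [h5]
    refine (norm_integral_le_integral_norm _).trans (le_of_eq ?_)
    congr 1
    ext t
    rw [norm_mul, norm_ee, one_mul]
  have h6 : (∫ t in Set.Icc (-b) b, ‖W t‖) ^ 2 ≤ 2 * b * ∫ t in Set.Icc (-b) b, ‖W t‖ ^ 2 := by
    -- Cauchy-Schwarz through the square
    set A : ℝ := ∫ t in Set.Icc (-b) b, ‖W t‖ with hA
    have hI1 : IntegrableOn (fun t => ‖W t‖) (Set.Icc (-b) b) := W.integrable.norm.integrableOn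
    have hI2 : IntegrableOn (fun t => ‖W t‖ ^ 2) (Set.Icc (-b) b) := hWI.integrableOn
    have hvol : (volume (Set.Icc (-b) b)).toReal = 2 * b := by
      rw [Real.volume_Icc, ENNReal.toReal_ofReal (by linarith)]
      ring
    have hfin : IsFiniteMeasure (volume.restrict (Set.Icc (-b) b)) := by
      constructor
      rw [Measure.restrict_apply_univ]
      exact isCompact_Icc.measure_lt_top
    have h7 : 0 ≤ ∫ t in Set.Icc (-b) b, (2 * b * ‖W t‖ - A) ^ 2 :=
      integral_nonneg fun t => sq_nonneg _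
    have h8 : ∫ t in Set.Icc (-b) b, (2 * b * ‖W t‖ - A) ^ 2 =
        (2 * b) ^ 2 * (∫ t in Set.Icc (-b) b, ‖W t‖ ^ 2) - 2 * (2 * b) * A * A +
          A ^ 2 * (2 * b) := by
      have h9 : ∀ t, (2 * b * ‖W t‖ - A) ^ 2 =
          ((2 * b) ^ 2 * ‖W t‖ ^ 2 - (2 * (2 * b) * A) * ‖W t‖) + A ^ 2 := by
        intro t
        ring
      simp_rw [h9]
      rw [integral_add, integral_sub, integral_const_mul, integral_const_mul, ← hA,
        integral_const, smul_eq_mul]
      · rw [Measure.real, Measure.restrict_apply_univ, hvol]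
        ring
      · exact hI2.integrable.const_mul _
      · exact hI1.integrable.const_mul _
      · exact (hI2.integrable.const_mul _).sub (hI1.integrable.const_mul _)
      · exact integrable_const _
    rw [h8] at h7
    rcases hb.eq_or_lt with hb0 | hb0
    · rw [← hb0]
      have : A = 0 := by
        rw [hA, ← hb0]
        simp
      rw [this]
      simp
    · have h10 : 0 ≤ (2 * b) * (2 * b * (∫ t in Set.Icc (-b) b, ‖W t‖ ^ 2) - A ^ 2) := by
        nlinarith
      have h11 := nonneg_of_mul_nonneg_right h10 (by linarith)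
      linarith
  have h12 : ∫ t in Set.Icc (-b) b, ‖W t‖ ^ 2 ≤ ∫ t, ‖W t‖ ^ 2 :=
    setIntegral_le_integral hWI (ae_of_all _ fun t => sq_nonneg _)
  calc ‖F x‖ ^ 2 ≤ (∫ t in Set.Icc (-b) b, ‖W t‖) ^ 2 := pow_le_pow_left₀ (norm_nonneg _) h4 2
    _ ≤ _ := h6
    _ ≤ _ := mul_le_mul_of_nonneg_left h12 (by linarith)

end Q298.Gap
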