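import Pool.Agent.Q298.Gap.BL
import Pool.Agent.Q298.Mim.Fin

/-!
Shifts of a band limited Schwartz function and the approximation of the sine kernel.
-/

set_option autoImplicit false

namespace Q298.Gap

open MeasureTheory Filter Topology ComplexConjugate Real Q298.Mim
open scoped FourierTransform SchwartzMap ContDiff

theorem N8 (N : ℕ) : (0 : ℝ) < N + 8 := by positivity

theorem inv8 (N : ℕ) : 1 / ((N : ℝ) + 8) ≤ 1 / 8 := by
  apply one_div_le_one_div_of_le (by norm_num)
  have : (0 : ℝ) ≤ N := Nat.cast_nonneg N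
  linarith

/-- The cutoff. -/
noncomputable def tb (N : ℕ) : ContDiffBump (0 : ℝ) :=
  ⟨1 / 2 - 2 * (1 / ((N : ℝ) + 8)), 1 / 2 - 1 / ((N : ℝ) + 8), by
    have := inv8 N
    linarith, by
    have : 0 < 1 / ((N : ℝ) + 8) := by positivity
    linarith⟩

/-- The cutoff as a complex function. -/
noncomputable def th (N : ℕ) (t : ℝ) : ℂ := ((tb N t : ℝ) : ℂ)

theorem th_smooth (N : ℕ) : ContDiff ℝ ∞ (th N) :=
  Complex.ofRealCLM.contDiff.comp (tb N).contDiff

theorem th_compact (N : ℕ) : HasCompactSupport (th N) :=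
  (tb N).hasCompactSupport.comp_left Complex.ofReal_zero

theorem th_support (N : ℕ) (t : ℝ) (ht : 1 / 2 - 1 / ((N : ℝ) + 8) ≤ |t|) : th N t = 0 := by
  unfold th
  have h1 : t ∉ Function.support (tb N) := by
    rw [ContDiffBump.support_eq, Metric.mem_ball, dist_zero_right, Real.norm_eq_abs]
    exact not_lt.mpr ht
  rw [Function.notMem_support] at h1
  rw [h1, Complex.ofReal_zero]

theorem th_even (N : ℕ) (t : ℝ) : th N (-t) = th N t := by
  unfold th
  rw [ContDiffBump.neg]

theorem th_norm (N : ℕ) (t : ℝ) : ‖th N t‖ ≤ 1 := by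
  unfold th
  rw [Complex.norm_real, Real.norm_of_nonneg ((tb N).nonneg' t)]
  exact (tb N).le_one

theorem th_conj (N : ℕ) (t : ℝ) : conj (th N t) = th N t := by
  unfold th
  rw [Complex.conj_ofReal]

/-- The cutoff as a Schwartz function. -/
noncomputable def thS (N : ℕ) : 𝓢(ℝ, ℂ) := (th_compact N).toSchwartzMap (th_smooth N)

theorem thS_coe (N : ℕ) : ⇑(thS N) = th N := rfl

/-- The inverse Fourier transform of the cutoff. -/
noncomputable def vt (N : ℕ) : 𝓢(ℝ, ℂ) := 𝓕⁻ (thS N)

theorem vt_eq (N : ℕ) (x : ℝ) : vt N x = ∫ t, ee (t * x) * th N t := by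
  unfold vt
  rw [SchwartzMap.fourierInv_coe, thS_coe, fourierInv_ee]

theorem fourier_vt (N : ℕ) : 𝓕 (vt N) = thS N := by
  unfold vt
  exact FourierTransform.fourier_fourierInv_eq _

theorem vt_conj (N : ℕ) (x : ℝ) : conj (vt N x) = vt N x := by
  rw [vt_eq, ← integral_conj, ← integral_neg_eq_self]
  congr 1
  ext t
  rw [map_mul, conj_ee, th_even, th_conj]
  congr 2
  ring

theorem BL_vt (N : ℕ) : BL (1 / 2 - 1 / ((N : ℝ) + 8)) (fun x => vt N x) := by
  refine ⟨vt N, fun x => rfl, fun ξ hξ => ?_⟩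
  rw [fourier_vt, thS_coe]
  exact th_support N ξ hξ.le

/-- The limit kernel. -/
noncomputable def kt (N : ℕ) (x y : ℝ) : ℂ := ∫ t, ee (t * (x - y)) * th N t ^ 2

theorem kt_cont (N : ℕ) : Continuous fun p : ℝ × ℝ => kt N p.1 p.2 := by
  have hc : HasCompactSupport (fun t => th N t ^ 2) := by
    have := (th_compact N).comp_left (g := fun z : ℂ => z ^ 2) (by simp)
    exact this
  have hs : ContDiff ℝ ∞ (fun t => th N t ^ 2) := (th_smooth N).pow 2
  set G : 𝓢(ℝ, ℂ) := 𝓕⁻ (hc.toSchwartzMap hs) with hG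
  have h1 : ∀ x y, kt N x y = G (x - y) := by
    intro x y
    rw [hG, SchwartzMap.fourierInv_coe, fourierInv_ee]
    rfl
  simp_rw [h1]
  exact G.continuous.comp (continuous_fst.sub continuous_snd)

theorem poisson_vt (N : ℕ) (x y : ℝ) :
    HasSum (fun j : ℤ => vt N (x - j) * conj (vt N (y - j))) (kt N x y) := by
  have hp : 0 < 1 / ((N : ℝ) + 8) := by positivity
  -- the product
  have hb1 : BL (1 / 2 - 1 / ((N : ℝ) + 8)) (fun u => vt N (u + x)) := by
    refine ((BL_vt N).shift (-x)).congr fun u => ?_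
    rw [sub_neg_eq_add]
  have hb2 : BL (1 / 2 - 1 / ((N : ℝ) + 8)) (fun u => vt N (u + y)) := by
    refine ((BL_vt N).shift (-y)).congr fun u => ?_
    rw [sub_neg_eq_add]
  have hb3 := hb1.mul hb2
  obtain ⟨C, hC, hdec⟩ := hb3.decay
  obtain ⟨F, hF, hFz⟩ := hb3
  have hsummable : Summable (fun j : ℤ => F j) := by
    have h1 := summable_c C
    refine Summable.of_norm_bounded h1 fun j => ?_
    rw [hF]
    refine (hdec j).trans ?_
    apply div_le_div_of_nonneg_right _ (by positivity)
    linarith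
  have hP := SchwartzMap.tsum_eq_tsum_fourier F 0
  have h2 : ∑' n : ℤ, (𝓕 F) n * fourier n ((0 : ℝ) : UnitAddCircle) = (𝓕 F) 0 := by
    rw [tsum_eq_single 0]
    · simp
    · intro n hn
      rw [hFz, zero_mul]
      have h3 : (1 : ℝ) ≤ |(n : ℝ)| := by
        rw [← Int.cast_abs]
        exact_mod_cast Int.one_le_abs hn
      linarith
  simp only [zero_add] at hP
  rw [h2] at hP
  have h4 : (𝓕 F) 0 = kt N x y := by
    rw [SchwartzMap.fourier_coe, fourier_ee]
    have h5 : ∀ u, ee (-(u * 0)) * F u = vt N (u + x) * vt N (u + y) := by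
      intro u
      rw [hF, mul_zero, neg_zero, ee_zero, one_mul]
    simp_rw [h5]
    -- self adjointness
    have hthI : Integrable (th N) := (thS N).integrable
    have ha : Integrable (fun t : ℝ => ee (-(t * x)) * th N t) := by
      refine hthI.bdd_mul (c := 1) ?_ ?_
      · apply Continuous.aestronglyMeasurable
        exact continuous_ee.comp (by fun_prop)
      · exact ae_of_all _ fun t => (norm_ee _).le
    have hbI : Integrable (fun u : ℝ => vt N (u + y)) := (vt N).integrable.comp_add_right y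
    have h6 := integral_fourier_mul (fun t : ℝ => ee (-(t * x)) * th N t)
      (fun u : ℝ => vt N (u + y)) ha hbI
    have h7 : ∀ u, 𝓕 (fun t : ℝ => ee (-(t * x)) * th N t) u = vt N (u + x) := by
      intro u
      rw [fourier_ee, vt_eq, ← integral_neg_eq_self]
      congr 1
      ext t
      rw [th_even, ← mul_assoc, ← ee_add]
      congr 2
      ring
    have h8 : ∀ t, 𝓕 (fun u : ℝ => vt N (u + y)) t = ee (t * y) * th N t := by
      intro t
      rw [fourier_ee, ← integral_sub_right_eq_self _ y]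
      have h9 : ∀ u, ee (-((u - y) * t)) * vt N (u - y + y) =
          ee (t * y) * (ee (-(u * t)) * vt N u) := by
        intro u
        rw [sub_add_cancel, ← mul_assoc, ← ee_add]
        congr 2
        ring
      simp_rw [h9]
      rw [integral_const_mul, ← fourier_ee, ← SchwartzMap.fourier_coe, fourier_vt, thS_coe]
    simp_rw [h7, h8] at h6
    rw [h6]
    unfold kt
    rw [← integral_neg_eq_self]
    congr 1
    ext t
    rw [th_even]
    have h10 : ee (t * (x - y)) = ee (-(-t * x)) * ee (-t * y) := by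
      rw [← ee_add]
      congr 1
      ring
    rw [h10]
    ring
  rw [h4] at hP
  have h11 : HasSum (fun j : ℤ => F j) (kt N x y) := by
    rw [← hP]
    exact hsummable.hasSum
  have h12 := (Equiv.neg ℤ).hasSum_iff.mpr h11
  refine h12.congr_fun ?_ |> fun h => h
  intro j
  simp only [Function.comp, Equiv.neg_apply]
  rw [hF, vt_conj]
  push_cast
  congr 2
  · ring
  · ring

end Q298.Gap
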