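import Pool.Agent.Q298.Gap.Lin
import Pool.Agent.Q298.Mim.Approx

/-!
The series of the integrals of the products of a function against the determinants of a kernel.
-/

set_option autoImplicit false
set_option linter.unusedSectionVars false

namespace Q298.Gap

open Finset MeasureTheory ComplexConjugate Matrix Filter Topology Q298.Mim
open scoped ComplexOrder MatrixOrder

/-- The real part of the determinant of the kernel. -/
noncomputable def dk (k : ℝ → ℝ → ℂ) (n : ℕ) (x : Fin n → ℝ) : ℝ :=
  (Matrix.of fun a b : Fin n => k (x a) (x b)).det.re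

/-- The integral of a product function against the determinant of the kernel. -/
noncomputable def Dn (k : ℝ → ℝ → ℂ) (v : ℝ → ℝ) (n : ℕ) : ℝ :=
  ∫ x : Fin n → ℝ, (∏ i, v (x i)) * dk k n x

/-- The series. -/
noncomputable def DD (k : ℝ → ℝ → ℂ) (v : ℝ → ℝ) : ℝ := ∑' n : ℕ, Dn k v n / n.factorial

theorem abs_Dn_le (k : ℝ → ℝ → ℂ) (n : ℕ) (hb : ∀ x : Fin n → ℝ, |dk k n x| ≤ 1) (v : ℝ → ℝ)
    (hv : Integrable v) : |Dn k v n| ≤ (∫ x, |v x|) ^ n := by
  unfold Dn
  have h0 := integral_fintype_prod_volume_eq_pow (ι := Fin n) (fun x => |v x|)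
  rw [Fintype.card_fin] at h0
  rw [← h0, ← Real.norm_eq_abs]
  apply norm_integral_le_of_norm_le
  · exact Integrable.fintype_prod (f := fun _ y => |v y|) (fun _ => hv.abs)
  · apply ae_of_all
    intro x
    rw [norm_mul, Real.norm_eq_abs, Real.norm_eq_abs, Finset.abs_prod]
    exact mul_le_of_le_one_right (Finset.prod_nonneg fun _ _ => abs_nonneg _) (hb x)

theorem continuous_dk (k : ℝ → ℝ → ℂ) (hk : Continuous fun p : ℝ × ℝ => k p.1 p.2) (n : ℕ) :
    Continuous (dk k n) := by
  unfold dk
  apply Complex.continuous_re.comp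
  apply Continuous.matrix_det
  apply continuous_pi
  intro a
  apply continuous_pi
  intro b
  have h1 : Continuous fun x : Fin n → ℝ => (x a, x b) :=
    (continuous_apply a).prodMk (continuous_apply b)
  exact hk.comp h1

theorem tendsto_dk (k : ℕ → ℝ → ℝ → ℂ) (k' : ℝ → ℝ → ℂ)
    (hlim : ∀ x y, Tendsto (fun m => k m x y) atTop (𝓝 (k' x y))) (n : ℕ) (x : Fin n → ℝ) :
    Tendsto (fun m => dk (k m) n x) atTop (𝓝 (dk k' n x)) := by
  unfold dk
  refine (Complex.continuous_re.tendsto _).comp ?_
  have hdet : Continuous fun M : Matrix (Fin n) (Fin n) ℂ => M.det :=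
    Continuous.matrix_det continuous_id
  refine (hdet.tendsto _).comp ?_
  refine tendsto_pi_nhds.mpr fun a => ?_
  refine tendsto_pi_nhds.mpr fun b => ?_
  exact hlim _ _

theorem DD_tendsto (k : ℕ → ℝ → ℝ → ℂ) (k' : ℝ → ℝ → ℂ)
    (hc : ∀ m, Continuous fun p : ℝ × ℝ => k m p.1 p.2)
    (hb : ∀ m n (x : Fin n → ℝ), |dk (k m) n x| ≤ 1)
    (hlim : ∀ x y, Tendsto (fun m => k m x y) atTop (𝓝 (k' x y))) (v : ℝ → ℝ)
    (hv : Integrable v) : Tendsto (fun m => DD (k m) v) atTop (𝓝 (DD k' v)) := by
  unfold DD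
  apply tendsto_tsum_of_dominated_convergence (bound := fun n : ℕ => (∫ x, |v x|) ^ n / n.factorial)
    (Real.summable_pow_div_factorial _)
  · intro n
    apply Tendsto.div_const
    unfold Dn
    apply tendsto_integral_of_dominated_convergence (fun x : Fin n → ℝ => ∏ i, |v (x i)|)
    · intro m
      apply AEStronglyMeasurable.mul
      · exact (Integrable.fintype_prod (f := fun _ y => v y) (fun _ => hv)).aestronglyMeasurable
      · exact (continuous_dk _ (hc m) n).aestronglyMeasurable
    · exact Integrable.fintype_prod (f := fun _ y => |v y|) (fun _ => hv.abs)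
    · intro m
      apply ae_of_all
      intro x
      rw [norm_mul, Real.norm_eq_abs, Real.norm_eq_abs, Finset.abs_prod]
      exact mul_le_of_le_one_right (Finset.prod_nonneg fun _ _ => abs_nonneg _) (hb m n x)
    · apply ae_of_all
      intro x
      exact (tendsto_dk k k' hlim n x).const_mul _
  · apply Eventually.of_forall
    intro m n
    rw [norm_div, Real.norm_eq_abs, RCLike.norm_natCast]
    have h3 : (0 : ℝ) < n.factorial := by positivity
    rw [div_le_div_iff_of_pos_right h3]
    exact abs_Dn_le _ n (hb m n) v hv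

variable {ι : Type*} [Fintype ι] [DecidableEq ι]

/-- The kernel of finite rank. -/
noncomputable def kf (φ : ι → ℝ → ℂ) (x y : ℝ) : ℂ := ∑ i, φ i x * conj (φ i y)

theorem kf_psd (φ : ι → ℝ → ℂ) (n : ℕ) (x : Fin n → ℝ) :
    (Matrix.of fun a b : Fin n => kf φ (x a) (x b)).PosSemidef := by
  have h : (Matrix.of fun a b : Fin n => kf φ (x a) (x b)) =
      (Matrix.of fun (a : Fin n) (i : ι) => φ i (x a)) *
        (Matrix.of fun (a : Fin n) (i : ι) => φ i (x a))ᴴ := by
    ext a b
    rw [Matrix.mul_apply, Matrix.of_apply]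
    rfl
  rw [h]
  exact Matrix.posSemidef_self_mul_conjTranspose _

theorem dk_kf (φ : ι → ℝ → ℂ) (hd : ∀ x, (kf φ x x).re ≤ 1) (n : ℕ) (x : Fin n → ℝ) :
    |dk (kf φ) n x| ≤ 1 := by
  have h := det_psd _ (kf_psd φ n x) (fun i => hd (x i))
  unfold dk
  rw [abs_of_nonneg h.1]
  exact h.2

theorem dk_kf_cast (φ : ι → ℝ → ℂ) (n : ℕ) (x : Fin n → ℝ) :
    ((dk (kf φ) n x : ℝ) : ℂ) = (Matrix.of fun a b : Fin n => kf φ (x a) (x b)).det := by
  have h := (kf_psd φ n x).det_nonneg
  rw [Complex.le_def] at h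
  apply Complex.ext
  · rfl
  · rw [Complex.ofReal_im, ← h.2]
    rfl

theorem continuous_kf (φ : ι → ℝ → ℂ) (hφ : ∀ i, Continuous (φ i)) :
    Continuous fun p : ℝ × ℝ => kf φ p.1 p.2 := by
  unfold kf
  apply continuous_finsetSum
  intro i _
  exact ((hφ i).comp continuous_fst).mul
    (Complex.continuous_conj.comp ((hφ i).comp continuous_snd))

theorem exists_diag' (φ : ι → ℝ → ℂ) (v : ℝ → ℝ)
    (hint : ∀ i j, Integrable (fun x => (v x : ℂ) * (φ i x * conj (φ j x)))) :
    ∃ (ψ : ι → ℝ → ℂ) (l : ι → ℝ),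
      (∀ i j, Integrable (fun x => (v x : ℂ) * (ψ i x * conj (ψ j x)))) ∧
      (∀ i j, ∫ x, (v x : ℂ) * (ψ i x * conj (ψ j x)) = if i = j then (l i : ℂ) else 0) ∧
      (∀ x y, ∑ k, ψ k x * conj (ψ k y) = ∑ k, φ k x * conj (φ k y)) ∧
      (1 + gram φ v).det = ((∏ i, (1 + l i) : ℝ) : ℂ) := by
  classical
  set G : Matrix ι ι ℂ := gram φ v with hG
  have hH : G.IsHermitian := gram_hermitian φ v
  set U : Matrix ι ι ℂ := (hH.eigenvectorUnitary : Matrix ι ι ℂ) with hU
  set l : ι → ℝ := hH.eigenvalues with hl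
  have hU1 : star U * U = 1 := Unitary.coe_star_mul_self hH.eigenvectorUnitary
  have hU2 : U * star U = 1 := Unitary.coe_mul_star_self hH.eigenvectorUnitary
  have hS : G = U * diagonal (RCLike.ofReal ∘ l) * star U := by
    have h := hH.spectral_theorem
    rw [Unitary.conjStarAlgAut_apply] at h
    exact h
  have hD : star U * G * U = diagonal (RCLike.ofReal ∘ l) := by
    rw [hS]
    calc star U * (U * diagonal (RCLike.ofReal ∘ l) * star U) * U
        = (star U * U) * diagonal (RCLike.ofReal ∘ l) * (star U * U) := by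
          simp only [Matrix.mul_assoc]
      _ = _ := by rw [hU1, Matrix.one_mul, Matrix.mul_one]
  set ψ : ι → ℝ → ℂ := fun k x => ∑ j, U j k * φ j x with hψ
  have hexp : ∀ i j x, (v x : ℂ) * (ψ i x * conj (ψ j x)) =
      ∑ a, ∑ b, (U a i * conj (U b j)) * ((v x : ℂ) * (φ a x * conj (φ b x))) := by
    intro i j x
    rw [hψ]
    simp only [map_sum, map_mul]
    rw [sum_mul_sum, mul_sum]
    apply sum_congr rfl
    intro a _
    rw [mul_sum]
    apply sum_congr rfl
    intro b _
    ring
  refine ⟨ψ, l, ?_, ?_, ?_, det_one_add G hH⟩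
  · intro i j
    simp_rw [hexp]
    exact integrable_finsetSum _ fun a _ => integrable_finsetSum _ fun b _ =>
      (hint a b).const_mul _
  · intro i j
    simp_rw [hexp]
    rw [integral_finsetSum _ fun a _ => integrable_finsetSum _ fun b _ =>
      (hint a b).const_mul _]
    have h1 : ∀ a, ∫ x, ∑ b, (U a i * conj (U b j)) * ((v x : ℂ) * (φ a x * conj (φ b x))) =
        ∑ b, (U a i * conj (U b j)) * G b a := by
      intro a
      rw [integral_finsetSum _ fun b _ => (hint a b).const_mul _]
      apply sum_congr rfl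
      intro b _
      rw [integral_const_mul]
      rfl
    simp_rw [h1]
    have h2 : (star U * G * U) j i = ∑ a, ∑ b, (U a i * conj (U b j)) * G b a := by
      rw [Matrix.mul_apply]
      apply sum_congr rfl
      intro a _
      rw [Matrix.mul_apply, sum_mul]
      apply sum_congr rfl
      intro b _
      rw [Matrix.star_apply, Complex.star_def]
      ring
    rw [← h2, hD, diagonal_apply]
    by_cases hij : i = j
    · subst hij
      simp
    · rw [if_neg hij, if_neg (fun h => hij h.symm)]
  · intro x y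
    have h1 : ∀ k, ψ k x * conj (ψ k y) =
        ∑ a, ∑ b, (φ a x * conj (φ b y)) * (U a k * conj (U b k)) := by
      intro k
      rw [hψ]
      simp only [map_sum, map_mul]
      rw [sum_mul_sum]
      apply sum_congr rfl
      intro a _
      apply sum_congr rfl
      intro b _
      ring
    simp_rw [h1]
    rw [sum_comm]
    apply sum_congr rfl
    intro a _
    rw [sum_comm]
    have h2 : ∀ b, ∑ k, (φ a x * conj (φ b y)) * (U a k * conj (U b k)) =
        if a = b then φ a x * conj (φ b y) else 0 := by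
      intro b
      rw [← mul_sum]
      have h3 : ∑ k, U a k * conj (U b k) = (U * star U) a b := by
        rw [Matrix.mul_apply]
        rfl
      rw [h3, hU2, Matrix.one_apply]
      split_ifs <;> simp
    simp_rw [h2]
    simp

/-- The series of a kernel of finite rank is a determinant. -/
theorem DD_kf (φ : ι → ℝ → ℂ) (v : ℝ → ℝ)
    (hint : ∀ i j, Integrable (fun x => (v x : ℂ) * (φ i x * conj (φ j x)))) :
    DD (kf φ) v = (1 + gram φ v).det.re := by
  obtain ⟨ψ, l, hψI, horth, hker, hdet⟩ := exists_diag' φ v hint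
  have h1 : ∀ n, Dn (kf φ) v n = es n l := by
    intro n
    have h2 := integral_det n v ψ l hψI horth
    have h3 : ∀ x : Fin n → ℝ, (∏ k, (v (x k) : ℂ)) *
        (Matrix.of fun a b : Fin n => ∑ i, ψ i (x a) * conj (ψ i (x b))).det =
        (((∏ k, v (x k)) * dk (kf φ) n x : ℝ) : ℂ) := by
      intro x
      push_cast
      rw [dk_kf_cast]
      congr 2
      congr 1
      ext a b
      exact hker _ _
    simp_rw [h3] at h2
    rw [integral_complex_ofReal] at h2
    exact_mod_cast h2
  rw [hdet, Complex.ofReal_re]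
  have h4 := prod_one_add_eq 1 l (Fintype.card ι + 1) le_rfl
  simp only [one_mul, one_pow] at h4
  rw [h4]
  unfold DD
  rw [tsum_eq_sum (s := range (Fintype.card ι + 1))]
  · apply sum_congr rfl
    intro n _
    rw [h1]
    ring
  · intro n hn
    rw [mem_range, not_lt] at hn
    rw [h1, es_zero_of_lt n l (by omega), zero_div]

end Q298.Gap
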