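import Pool.Agent.Q298.Gap.Basis
import Pool.Agent.Q298.Gap.Ser

/-!
The family of the shifts: norms and the convergence of the kernels.
-/

set_option autoImplicit false
set_option linter.unusedSectionVars false

namespace Q298.Gap

open MeasureTheory Filter Topology ComplexConjugate Real Q298.Mim
open scoped FourierTransform SchwartzMap ContDiff

theorem ee_integral (m : ℤ) : ∫ t in (-(1 / 2) : ℝ)..(1 / 2), ee (t * m) = if m = 0 then 1 else 0 := by
  have h := sinc_integral (m : ℝ)
  unfold ee
  rw [h]
  split_ifs with hm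
  · rw [hm]
    simp
  · have h1 : (Real.pi * (m : ℝ)) ≠ 0 := by
      have : (m : ℝ) ≠ 0 := by exact_mod_cast hm
      have := Real.pi_pos.ne'
      positivity
    rw [Real.sinc_of_ne_zero h1, mul_comm Real.pi, Real.sin_int_mul_pi, zero_div,
      Complex.ofReal_zero]

variable {ι : Type*} [Fintype ι]

/-- The family of the shifts. -/
noncomputable def ps (N : ℕ) (e : ι → ℤ) (i : ι) (x : ℝ) : ℂ := vt N (x - e i)

theorem continuous_ps (N : ℕ) (e : ι → ℤ) (i : ι) : Continuous (ps N e i) := by
  unfold ps
  exact (vt N).continuous.comp (continuous_id.sub continuous_const)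

theorem BL_ps (N : ℕ) (e : ι → ℤ) (c : ι → ℂ) : BL (1 / 2) (fun x => ∑ i, c i * ps N e i x) := by
  have hp : 0 < 1 / ((N : ℝ) + 8) := by positivity
  apply BL.sum
  intro i _
  exact (((BL_vt N).shift (e i)).const_mul (c i)).mono (by linarith)

theorem parseval_trig (e : ι → ℤ) (he : Function.Injective e) (c : ι → ℂ) :
    ∫ t in (-(1 / 2) : ℝ)..(1 / 2), ‖∑ i, c i * ee (-(e i * t))‖ ^ 2 = ∑ i, ‖c i‖ ^ 2 := by
  classical
  have h1 : ∀ t : ℝ, ((‖∑ i, c i * ee (-(e i * t))‖ ^ 2 : ℝ) : ℂ) =
      ∑ i, ∑ j, (c i * conj (c j)) * ee (t * ((e j - e i : ℤ) : ℝ)) := by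
    intro t
    rw [Complex.ofReal_pow, ← Complex.ofReal_pow, ← Complex.normSq_eq_norm_sq, ← Complex.mul_conj]
    simp only [map_sum, map_mul]
    rw [Finset.sum_mul_sum]
    apply Finset.sum_congr rfl
    intro i _
    apply Finset.sum_congr rfl
    intro j _
    have h2 : ee (t * ((e j - e i : ℤ) : ℝ)) = ee (-(e i * t)) * conj (ee (-(e j * t))) := by
      rw [conj_ee, ← ee_add]
      congr 1
      push_cast
      ring
    rw [h2]
    ring
  have h3 : ((∫ t in (-(1 / 2) : ℝ)..(1 / 2), ‖∑ i, c i * ee (-(e i * t))‖ ^ 2 : ℝ) : ℂ) =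
      ((∑ i, ‖c i‖ ^ 2 : ℝ) : ℂ) := by
    rw [← intervalIntegral.integral_ofReal]
    simp_rw [h1]
    rw [intervalIntegral.integral_finsetSum]
    · have h4 : ∀ i, ∫ t in (-(1 / 2) : ℝ)..(1 / 2),
          ∑ j, (c i * conj (c j)) * ee (t * ((e j - e i : ℤ) : ℝ)) = c i * conj (c i) := by
        intro i
        rw [intervalIntegral.integral_finsetSum]
        · simp_rw [intervalIntegral.integral_const_mul, ee_integral]
          rw [Finset.sum_eq_single i]
          · rw [if_pos (sub_self _), mul_one]
          · intro j _ hj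
            rw [if_neg, mul_zero]
            intro h
            exact hj (he (sub_eq_zero.mp h))
          · intro h
            exact absurd (Finset.mem_univ i) h
        · intro j _
          apply Continuous.intervalIntegrable
          exact continuous_const.mul (continuous_ee.comp (by fun_prop))
      simp_rw [h4]
      push_cast
      apply Finset.sum_congr rfl
      intro i _
      rw [Complex.mul_conj, Complex.normSq_eq_norm_sq]
      push_cast
      rfl
    · intro i _
      apply Continuous.intervalIntegrable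
      apply continuous_finsetSum
      intro j _
      exact continuous_const.mul (continuous_ee.comp (by fun_prop))
  exact_mod_cast h3

theorem fourier_ps (N : ℕ) (e : ι → ℤ) (c : ι → ℂ) (ξ : ℝ) :
    𝓕 (fun x => ∑ i, c i * ps N e i x) ξ = (∑ i, c i * ee (-(e i * ξ))) * th N ξ := by
  rw [fourier_ee]
  have h1 : ∀ i, ∫ u, ee (-(u * ξ)) * (c i * ps N e i u) = c i * ee (-(e i * ξ)) * th N ξ := by
    intro i
    rw [← integral_add_right_eq_self _ (e i : ℝ)]
    have h2 : ∀ u : ℝ, ee (-((u + e i) * ξ)) * (c i * ps N e i (u + e i)) =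
        (c i * ee (-(e i * ξ))) * (ee (-(u * ξ)) * vt N u) := by
      intro u
      unfold ps
      rw [add_sub_cancel_right]
      have : ee (-((u + e i) * ξ)) = ee (-(e i * ξ)) * ee (-(u * ξ)) := by
        rw [← ee_add]
        congr 1
        ring
      rw [this]
      ring
    simp_rw [h2]
    rw [integral_const_mul, ← fourier_ee, ← SchwartzMap.fourier_coe, fourier_vt, thS_coe]
  simp_rw [Finset.mul_sum]
  rw [integral_finsetSum]
  · simp_rw [h1]
    rw [Finset.sum_mul]
  · intro i _
    have h3 : Integrable (fun u => c i * ps N e i u) := by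
      unfold ps
      exact ((vt N).integrable.comp_sub_right _).const_mul _
    refine h3.bdd_mul (c := 1) ?_ ?_
    · apply Continuous.aestronglyMeasurable
      exact continuous_ee.comp (by fun_prop)
    · exact ae_of_all _ fun t => (norm_ee _).le

/-- The shifts form a Bessel family. -/
theorem bessel_ps (N : ℕ) (e : ι → ℤ) (he : Function.Injective e) (c : ι → ℂ) :
    ∫ x, ‖∑ i, c i * ps N e i x‖ ^ 2 ≤ ∑ i, ‖c i‖ ^ 2 := by
  obtain ⟨F, hF, _⟩ := BL_ps N e c
  have hF' : ⇑F = fun x => ∑ i, c i * ps N e i x := funext hF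
  have h1 := SchwartzMap.integral_norm_sq_fourier F
  simp_rw [hF] at h1
  rw [← h1]
  have h2 : ∀ ξ, (𝓕 F) ξ = (∑ i, c i * ee (-(e i * ξ))) * th N ξ := by
    intro ξ
    rw [SchwartzMap.fourier_coe, hF', fourier_ps]
  simp_rw [h2]
  have hp : 0 < 1 / ((N : ℝ) + 8) := by positivity
  have h3 : ∫ ξ, ‖(∑ i, c i * ee (-(e i * ξ))) * th N ξ‖ ^ 2 =
      ∫ ξ in (-(1 / 2) : ℝ)..(1 / 2), ‖(∑ i, c i * ee (-(e i * ξ))) * th N ξ‖ ^ 2 := by
    rw [intervalIntegral.integral_of_le (by norm_num), setIntegral_eq_integral_of_forall_compl_eq_zero]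
    intro ξ hξ
    rw [th_support, mul_zero, norm_zero]
    · norm_num
    · by_contra hcon
      rw [not_le] at hcon
      apply hξ
      have := abs_lt.mp hcon
      constructor
      · linarith
      · linarith
  rw [h3, ← parseval_trig e he c]
  apply intervalIntegral.integral_mono_on (by norm_num)
  · apply Continuous.intervalIntegrable
    apply Continuous.pow
    apply Continuous.norm
    apply Continuous.mul
    · apply continuous_finsetSum
      intro j _
      exact continuous_const.mul (continuous_ee.comp (by fun_prop))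
    · exact (thS N).continuous
  · apply Continuous.intervalIntegrable
    apply Continuous.pow
    apply Continuous.norm
    apply continuous_finsetSum
    intro j _
    exact continuous_const.mul (continuous_ee.comp (by fun_prop))
  · intro t _
    rw [norm_mul, mul_pow]
    have h4 := th_norm N t
    have h5 : ‖th N t‖ ^ 2 ≤ 1 := pow_le_one₀ (norm_nonneg _) h4
    exact mul_le_of_le_one_right (sq_nonneg _) h5

theorem kt_tendsto (x y : ℝ) :
    Tendsto (fun N => kt N x y) atTop (𝓝 ((Real.sinc (Real.pi * (x - y)) : ℝ) : ℂ)) := by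
  have h0 : ((Real.sinc (Real.pi * (x - y)) : ℝ) : ℂ) =
      ∫ t, (Set.Ioo (-(1 / 2) : ℝ) (1 / 2)).indicator (fun t => ee (t * (x - y))) t := by
    rw [integral_indicator measurableSet_Ioo, ← integral_Ioc_eq_integral_Ioo,
      ← intervalIntegral.integral_of_le (by norm_num), ← sinc_integral]
    rfl
  rw [h0]
  unfold kt
  apply tendsto_integral_of_dominated_convergence
    (fun t => (Set.Ioo (-(1 / 2) : ℝ) (1 / 2)).indicator (fun _ => (1 : ℝ)) t)
  · intro N
    apply Continuous.aestronglyMeasurable
    apply Continuous.mul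
    · exact continuous_ee.comp (by fun_prop)
    · exact (thS N).continuous.pow 2
  · rw [integrable_indicator_iff measurableSet_Ioo]
    exact integrableOn_const (by rw [Real.volume_Ioo]; exact ENNReal.ofReal_ne_top)
  · intro N
    apply ae_of_all
    intro t
    have hp : 0 < 1 / ((N : ℝ) + 8) := by positivity
    by_cases ht : t ∈ Set.Ioo (-(1 / 2) : ℝ) (1 / 2)
    · rw [Set.indicator_of_mem ht, norm_mul, norm_ee, one_mul, norm_pow]
      exact pow_le_one₀ (norm_nonneg _) (th_norm N t)
    · rw [Set.indicator_of_notMem ht, th_support]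
      · simp
      · by_contra hcon
        rw [not_le] at hcon
        apply ht
        have := abs_lt.mp hcon
        constructor
        · linarith
        · linarith
  · apply ae_of_all
    intro t
    by_cases ht : t ∈ Set.Ioo (-(1 / 2) : ℝ) (1 / 2)
    · rw [Set.indicator_of_mem ht]
      have h1 : ∀ᶠ N : ℕ in atTop, th N t = 1 := by
        have h2 : |t| < 1 / 2 := abs_lt.mpr ht
        have h3 : Tendsto (fun N : ℕ => 2 * (1 / ((N : ℝ) + 8))) atTop (𝓝 (2 * 0)) := by
          apply Tendsto.const_mul
          have h4 : Tendsto (fun N : ℕ => (N : ℝ) + 8) atTop atTop :=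
            tendsto_atTop_add_const_right _ _ tendsto_natCast_atTop_atTop
          simp_rw [one_div]
          exact h4.inv_tendsto_atTop
        rw [mul_zero] at h3
        have h5 := h3.eventually_lt_const (by linarith : (0 : ℝ) < 1 / 2 - |t|)
        filter_upwards [h5] with N hN
        unfold th
        rw [ContDiffBump.one_of_mem_closedBall, Complex.ofReal_one]
        rw [Metric.mem_closedBall, dist_zero_right, Real.norm_eq_abs]
        change |t| ≤ 1 / 2 - 2 * (1 / ((N : ℝ) + 8))
        linarith
      refine tendsto_const_nhds.congr' ?_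
      filter_upwards [h1] with N hN
      rw [hN, one_pow, mul_one]
    · rw [Set.indicator_of_notMem ht]
      refine tendsto_const_nhds.congr fun N => ?_
      rw [th_support]
      · simp
      · have hp : 0 < 1 / ((N : ℝ) + 8) := by positivity
        by_contra hcon
        rw [not_le] at hcon
        apply ht
        have := abs_lt.mp hcon
        constructor
        · linarith
        · linarith

/-- The finite sets which exhaust the integers. -/
noncomputable def sK (K : ℕ) : Finset ℤ := Finset.Icc (-(K : ℤ)) K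

theorem sK_tendsto : Tendsto sK atTop atTop := by
  apply tendsto_atTop_finset_of_monotone
  · intro K L hKL x hx
    unfold sK at hx ⊢
    rw [Finset.mem_Icc] at hx ⊢
    have : (K : ℤ) ≤ L := by exact_mod_cast hKL
    omega
  · intro x
    refine ⟨x.natAbs, ?_⟩
    unfold sK
    rw [Finset.mem_Icc]
    omega

/-- The kernel of the shifts in `[-K, K]`. -/
noncomputable def kK (N K : ℕ) : ℝ → ℝ → ℂ := kf (fun (i : sK K) => ps N (fun i : sK K => (i : ℤ)) i)

theorem kK_eq (N K : ℕ) (x y : ℝ) : kK N K x y = ∑ j ∈ sK K, vt N (x - j) * conj (vt N (y - j)) := by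
  unfold kK kf ps
  exact Finset.sum_coe_sort (sK K) (fun j : ℤ => vt N (x - j) * conj (vt N (y - j)))

theorem kK_tendsto (N : ℕ) (x y : ℝ) : Tendsto (fun K => kK N K x y) atTop (𝓝 (kt N x y)) := by
  simp_rw [kK_eq]
  exact (poisson_vt N x y).comp sK_tendsto

theorem kK_diag (N K : ℕ) (x : ℝ) : (kK N K x x).re ≤ 1 := by
  have h1 : ∀ j : ℤ, vt N (x - j) * conj (vt N (x - j)) = ((‖vt N (x - j)‖ ^ 2 : ℝ) : ℂ) := by
    intro j
    rw [Complex.mul_conj, Complex.normSq_eq_norm_sq]
  have h2 := poisson_vt N x x
  simp_rw [h1] at h2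
  have h3 := (Complex.hasSum_iff _ _).mp h2
  simp only [Complex.ofReal_re] at h3
  have h4 := sum_le_hasSum (sK K) (fun j _ => sq_nonneg _) h3.1
  rw [kK_eq]
  simp_rw [h1]
  rw [← Complex.ofReal_sum, Complex.ofReal_re]
  refine h4.trans ?_
  unfold kt
  simp only [sub_self, mul_zero, ee_zero, one_mul]
  have h5 : ∀ t, th N t ^ 2 = ((tb N t ^ 2 : ℝ) : ℂ) := by
    intro t
    unfold th
    push_cast
    rfl
  simp_rw [h5]
  rw [integral_complex_ofReal, Complex.ofReal_re]
  have hp : 0 < 1 / ((N : ℝ) + 8) := by positivity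
  have h6 : ∫ t, (Set.Ioo (-(1 / 2) : ℝ) (1 / 2)).indicator (fun _ => (1 : ℝ)) t = 1 := by
    rw [integral_indicator measurableSet_Ioo, setIntegral_const, Measure.real, Real.volume_Ioo]
    norm_num
  rw [← h6]
  apply integral_mono
  · have hc : HasCompactSupport (fun t => tb N t ^ 2) := by
      have := (tb N).hasCompactSupport.comp_left (g := fun z : ℝ => z ^ 2) (by simp)
      exact this
    exact ((tb N).continuous.pow 2).integrable_of_hasCompactSupport hc
  · rw [integrable_indicator_iff measurableSet_Ioo]
    exact integrableOn_const (by rw [Real.volume_Ioo]; exact ENNReal.ofReal_ne_top)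
  · intro t
    simp only
    by_cases ht : t ∈ Set.Ioo (-(1 / 2) : ℝ) (1 / 2)
    · rw [Set.indicator_of_mem ht]
      exact pow_le_one₀ ((tb N).nonneg' t) (tb N).le_one
    · rw [Set.indicator_of_notMem ht]
      have h7 : t ∉ Function.support (tb N) := by
        rw [ContDiffBump.support_eq, Metric.mem_ball, dist_zero_right, Real.norm_eq_abs]
        intro hcon
        apply ht
        change |t| < 1 / 2 - 1 / ((N : ℝ) + 8) at hcon
        have := abs_lt.mp hcon
        constructor
        · linarith
        · linarith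
      rw [Function.notMem_support] at h7
      rw [h7]
      norm_num

end Q298.Gap
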