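import Pool.Agent.Q298.Gap.PL
import Pool.Agent.Q298.Mim.Fin

/-!
The weight which is tiny near the origin, and the bounds for band limited functions.
-/

set_option autoImplicit false

namespace Q298.Gap

open MeasureTheory Filter Topology ComplexConjugate Real Q298.Mim
open scoped FourierTransform SchwartzMap ContDiff

theorem BL_HH (r : ℝ) (hr : 0 < r) : BL r (fun x => HH r hr x) := by
  refine ⟨HH r hr, fun x => rfl, fun ξ hξ => ?_⟩
  unfold HH
  rw [FourierTransform.fourier_fourierInv_eq]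
  rw [chiS_coe]
  exact chi_support r hr ξ hξ.le

theorem BL_hh (r : ℝ) (hr : 0 < r) : BL (2 * r) (fun x => ((hh r hr x : ℝ) : ℂ)) := by
  have h := (BL_HH r hr).mul (BL_HH r hr)
  rw [← two_mul] at h
  refine h.congr fun x => ?_
  rw [hh_cast, sq]

theorem HH_lt_one (r : ℝ) (hr : 0 < r) (x : ℝ) (hx : x ≠ 0) : ‖HH r hr x‖ < 1 := by
  have hp := Real.pi_pos
  set g : ℝ → ℝ := (bmp r hr).normed volume with hg
  have hg0 : ∀ t, 0 ≤ g t := fun t => (bmp r hr).nonneg_normed t
  have hgc : Continuous g := (bmp r hr).continuous_normed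
  have hgI : Integrable g := (bmp r hr).integrable_normed
  have hg1 : ∫ t, g t = 1 := (bmp r hr).integral_normed
  have hcI : Integrable (fun t => Real.cos (2 * π * (t * x)) * g t) := by
    refine hgI.bdd_mul (c := 1) ?_ ?_
    · apply Continuous.aestronglyMeasurable
      fun_prop
    · apply ae_of_all
      intro t
      exact Real.abs_cos_le_one _
  have hre : (HH r hr x).re = ∫ t, Real.cos (2 * π * (t * x)) * g t := by
    rw [HH_eq]
    have hI : Integrable (fun t => ee (t * x) * chi r hr t) := by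
      refine (chi_integrable r hr).bdd_mul (c := 1) ?_ ?_
      · exact (continuous_ee.comp (continuous_mul_const x)).aestronglyMeasurable
      · exact ae_of_all _ fun t => (norm_ee _).le
    have h1 := integral_re hI
    simp only [RCLike.re_to_complex] at h1
    rw [← h1]
    congr 1
    ext t
    unfold chi
    rw [Complex.re_mul_ofReal, ee_eq, Complex.exp_ofReal_mul_I_re]
  -- the point
  set t0 : ℝ := min (r / 2) (1 / (4 * |x|)) with ht0
  have hx0 : 0 < |x| := abs_pos.mpr hx
  have ht0p : 0 < t0 := lt_min (by linarith) (by positivity)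
  have ht0r : t0 < r := lt_of_le_of_lt (min_le_left _ _) (by linarith)
  have ht0x : t0 * |x| ≤ 1 / 4 := by
    calc t0 * |x| ≤ 1 / (4 * |x|) * |x| := by
          apply mul_le_mul_of_nonneg_right (min_le_right _ _) hx0.le
      _ = 1 / 4 := by field_simp
  have hcos : 0 ≤ Real.cos (2 * π * (t0 * x)) ∧ Real.cos (2 * π * (t0 * x)) < 1 := by
    have h1 : Real.cos (2 * π * (t0 * x)) = Real.cos (2 * π * (t0 * |x|)) := by
      rcases le_or_gt 0 x with h | h
      · rw [abs_of_nonneg h]
      · rw [abs_of_neg h, ← Real.cos_neg]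
        congr 1
        ring
    rw [h1]
    have h2 : 0 < t0 * |x| := by positivity
    constructor
    · apply Real.cos_nonneg_of_neg_pi_div_two_le_of_le
      · nlinarith
      · nlinarith
    · rw [← Real.cos_zero]
      apply Real.cos_lt_cos_of_nonneg_of_le_pi_div_two le_rfl
      · nlinarith
      · nlinarith
  have hgt0 : 0 < g t0 := by
    have : t0 ∈ Function.support g := by
      rw [hg, ContDiffBump.support_normed_eq, Metric.mem_ball, dist_zero_right, Real.norm_eq_abs,
        abs_of_pos ht0p]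
      exact ht0r
    exact lt_of_le_of_ne (hg0 t0) (Ne.symm this)
  have hpos : ∀ s : ℝ, |s| ≤ 1 → (1 + s * Real.cos (2 * π * (t0 * x))) ≠ 0 →
      0 < 1 + s * (HH r hr x).re := by
    intro s hs hne
    have h1 : 1 + s * (HH r hr x).re = ∫ t, (1 + s * Real.cos (2 * π * (t * x))) * g t := by
      rw [hre]
      have h2 : ∀ t, (1 + s * Real.cos (2 * π * (t * x))) * g t =
          g t + s * (Real.cos (2 * π * (t * x)) * g t) := by
        intro t
        ring
      simp_rw [h2]
      rw [integral_add hgI (hcI.const_mul _), integral_const_mul, hg1]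
    rw [h1]
    have h3 : ∀ t, 0 ≤ (1 + s * Real.cos (2 * π * (t * x))) * g t := by
      intro t
      apply mul_nonneg _ (hg0 t)
      have h4 : |s * Real.cos (2 * π * (t * x))| ≤ 1 := by
        rw [abs_mul]
        exact mul_le_one₀ hs (abs_nonneg _) (Real.abs_cos_le_one _)
      linarith [(abs_le.mp h4).1]
    have h5 : Integrable (fun t => (1 + s * Real.cos (2 * π * (t * x))) * g t) := by
      have h2 : ∀ t, g t + s * (Real.cos (2 * π * (t * x)) * g t) =
          (1 + s * Real.cos (2 * π * (t * x))) * g t := by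
        intro t
        ring
      exact (hgI.add (hcI.const_mul s)).congr (ae_of_all _ h2)
    rw [integral_pos_iff_support_of_nonneg h3 h5]
    apply IsOpen.measure_pos
    · apply Continuous.isOpen_support
      fun_prop
    · exact ⟨t0, mul_ne_zero hne hgt0.ne'⟩
  have h1 := hpos 1 (by simp) (by
    have := hcos.1
    intro h
    linarith)
  have h2 := hpos (-1) (by simp) (by
    have := hcos.2
    intro h
    linarith)
  rw [HH_real, Complex.norm_real, Real.norm_eq_abs, abs_lt]
  constructor <;> linarith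

/-- The profile. -/
noncomputable def eta (x : ℝ) : ℝ := hh (1 / 2) (by norm_num) x

theorem eta_nonneg (x : ℝ) : 0 ≤ eta x := hh_nonneg _ _ x

theorem eta_le_one (x : ℝ) : eta x ≤ 1 := hh_le_one _ _ x

theorem eta_zero : eta 0 = 1 := by
  unfold eta hh
  rw [HH_zero]
  simp

theorem continuous_eta : Continuous eta := continuous_hh _ _

theorem BL_eta : BL 1 (fun x => ((eta x : ℝ) : ℂ)) := by
  have h := BL_hh (1 / 2) (by norm_num)
  rw [mul_one_div_cancel (by norm_num : (2 : ℝ) ≠ 0)] at h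
  exact h

theorem eta_gap (r : ℝ) (hr : 0 < r) : ∃ κ : ℝ, 0 < κ ∧ κ ≤ 1 ∧ ∀ x, r ≤ |x| → eta x ≤ 1 - κ := by
  obtain ⟨C, hC, hdec⟩ := hh_decay (1 / 2) (by norm_num)
  set X : ℝ := 2 * C + 1 with hX
  have hfar : ∀ x, X ≤ |x| → eta x ≤ 1 / 2 := by
    intro x hx
    refine (hdec x).trans ?_
    rw [div_le_iff₀ (by positivity)]
    have h1 : X ^ 2 ≤ x ^ 2 := by
      rw [← sq_abs x]
      exact pow_le_pow_left₀ (by positivity) hx 2
    nlinarith
  have hK : IsCompact ({x : ℝ | r ≤ |x|} ∩ Set.Icc (-X) X) := by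
    apply isCompact_Icc.inter_left
    exact isClosed_le continuous_const continuous_abs
  rcases ({x : ℝ | r ≤ |x|} ∩ Set.Icc (-X) X).eq_empty_or_nonempty with he | hne
  · refine ⟨1 / 2, by norm_num, by norm_num, fun x hx => ?_⟩
    have h1 : X ≤ |x| := by
      by_contra hcon
      rw [not_le] at hcon
      have : x ∈ ({x : ℝ | r ≤ |x|} ∩ Set.Icc (-X) X) := ⟨hx, abs_le.mp hcon.le⟩
      rw [he] at this
      exact this
    linarith [hfar x h1]
  · obtain ⟨x0, hx0, hmax⟩ := hK.exists_isMaxOn hne continuous_eta.continuousOn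
    have hx1 : r ≤ |x0| := hx0.1
    have h1 : eta x0 < 1 := by
      have h2 := HH_lt_one (1 / 2) (by norm_num) x0 (by
        intro h
        rw [h, abs_zero] at hx1
        linarith)
      unfold eta hh
      have h3 := norm_nonneg (HH (1 / 2) (by norm_num) x0)
      nlinarith
    refine ⟨min (1 / 2) (1 - eta x0), lt_min (by norm_num) (by linarith),
      (min_le_left _ _).trans (by norm_num), fun x hx => ?_⟩
    rcases le_or_gt X |x| with h | h
    · have := min_le_left (1 / 2) (1 - eta x0)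
      linarith [hfar x h]
    · have h2 : x ∈ ({x : ℝ | r ≤ |x|} ∩ Set.Icc (-X) X) := ⟨hx, abs_le.mp h.le⟩
      have h3 : eta x ≤ eta x0 := hmax h2
      have := min_le_right (1 / 2) (1 - eta x0)
      linarith

/-- The factor. -/
noncomputable def gg (b lam : ℝ) (n : ℕ) (x : ℝ) : ℝ := (1 - lam * eta (b / n * x)) ^ n

/-- The weight. -/
noncomputable def w0 (b lam : ℝ) (n : ℕ) (x : ℝ) : ℝ := (1 - lam * eta (b / n * x)) ^ (2 * n)

theorem w0_eq (b lam : ℝ) (n : ℕ) (x : ℝ) : w0 b lam n x = gg b lam n x ^ 2 := by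
  unfold w0 gg
  rw [← pow_mul]
  congr 1
  ring

theorem BL_one_sub_pow {β : ℝ} {η : ℝ → ℂ} (hβ : 0 ≤ β) (h : BL β η) (c : ℂ) (m : ℕ) :
    BL (m * β) (fun x => 1 - (1 - c * η x) ^ m) := by
  induction m with
  | zero => simpa using BL.zero 0
  | succ m ih =>
    have h1 : BL ((m + 1 : ℕ) * β) (fun x => c * η x) := by
      apply (h.const_mul c).mono
      push_cast
      have : 0 ≤ (m : ℝ) * β := by positivity
      linarith
    have h2 : BL ((m + 1 : ℕ) * β) (fun x => 1 - (1 - c * η x) ^ m) := by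
      apply ih.mono
      push_cast
      linarith
    have h3 : BL ((m + 1 : ℕ) * β) (fun x => (-c) * (η x * (1 - (1 - c * η x) ^ m))) := by
      have := (h.mul ih).const_mul (-c)
      apply this.mono
      push_cast
      linarith
    refine ((h1.add h2).add h3).congr fun x => ?_
    rw [pow_succ]
    ring

theorem BL_w0 (b lam : ℝ) (hb : 0 < b) (n : ℕ) (hn : 1 ≤ n) :
    BL (2 * b) (fun x => ((1 - w0 b lam n x : ℝ) : ℂ)) := by
  have hn0 : (0 : ℝ) < n := by exact_mod_cast hn
  have h1 := BL_eta.scale (b / n) (by positivity)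
  have h2 := BL_one_sub_pow (by positivity) h1 (lam : ℂ) (2 * n)
  have h3 : ((2 * n : ℕ) : ℝ) * (b / n * 1) = 2 * b := by
    push_cast
    field_simp
  rw [h3] at h2
  refine h2.congr fun x => ?_
  unfold w0
  push_cast
  rfl

theorem BL_gg (b lam : ℝ) (hb : 0 < b) (n : ℕ) (hn : 1 ≤ n) :
    BL b (fun x => ((1 - gg b lam n x : ℝ) : ℂ)) := by
  have hn0 : (0 : ℝ) < n := by exact_mod_cast hn
  have h1 := BL_eta.scale (b / n) (by positivity)
  have h2 := BL_one_sub_pow (by positivity) h1 (lam : ℂ) n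
  have h3 : (n : ℝ) * (b / n * 1) = b := by
    field_simp
  rw [h3] at h2
  refine h2.congr fun x => ?_
  unfold gg
  push_cast
  rfl

theorem base_pos (lam : ℝ) (hl0 : 0 ≤ lam) (y : ℝ) : 1 - lam ≤ 1 - lam * eta y := by
  have h1 := eta_le_one y
  nlinarith

theorem base_le (lam : ℝ) (hl0 : 0 ≤ lam) (y : ℝ) : 1 - lam * eta y ≤ 1 := by
  have h1 := eta_nonneg y
  nlinarith

theorem w0_le_one (b lam : ℝ) (hl0 : 0 ≤ lam) (hl1 : lam < 1) (n : ℕ) (x : ℝ) :
    w0 b lam n x ≤ 1 :=
  pow_le_one₀ (by linarith [base_pos lam hl0 (b / n * x)]) (base_le lam hl0 _)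

theorem w0_ge (b lam : ℝ) (hl0 : 0 ≤ lam) (hl1 : lam < 1) (n : ℕ) (x : ℝ) :
    (1 - lam) ^ (2 * n) ≤ w0 b lam n x :=
  pow_le_pow_left₀ (by linarith) (base_pos lam hl0 (b / n * x)) _

theorem w0_nonneg (b lam : ℝ) (n : ℕ) (x : ℝ) : 0 ≤ w0 b lam n x := by
  rw [w0_eq]
  exact sq_nonneg _

theorem continuous_w0 (b lam : ℝ) (n : ℕ) : Continuous (w0 b lam n) := by
  unfold w0
  have := continuous_eta
  fun_prop

theorem w0_sq {b lam : ℝ} {n : ℕ} (f : ℝ → ℂ) (x : ℝ) :
    ‖((gg b lam n x : ℝ) : ℂ) * f x‖ ^ 2 = w0 b lam n x * ‖f x‖ ^ 2 := by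
  rw [norm_mul, Complex.norm_real, mul_pow, Real.norm_eq_abs, sq_abs, w0_eq]

theorem tilt_all (b lam : ℝ) (hb : 0 < b) (hb2 : b ≤ 1 / 2) (n : ℕ) (hn : 1 ≤ n) {f : ℝ → ℂ}
    (hf : BL (1 / 2) f) (x : ℝ) :
    w0 b lam n x * ‖f x‖ ^ 2 ≤ 2 * ∫ y, w0 b lam n y * ‖f y‖ ^ 2 := by
  have h1 : BL 1 (fun x => ((gg b lam n x : ℝ) : ℂ) * f x) := by
    have h2 := ((BL_gg b lam hb n hn).mul hf).const_mul (-1)
    have h3 : BL 1 (fun x => f x + -1 * (((1 - gg b lam n x : ℝ) : ℂ) * f x)) :=
      (hf.mono (by norm_num)).add (h2.mono (by linarith))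
    refine h3.congr fun x => ?_
    push_cast
    ring
  have h4 := h1.norm_sq_le zero_le_one x
  simp_rw [w0_sq] at h4
  linarith

theorem exists_tilt (b : ℝ) (hb : 0 < b) (hb2 : b ≤ 1 / 2) :
    ∃ lam r : ℝ, 0 ≤ lam ∧ lam < 1 ∧ 0 < r ∧ ∀ n : ℕ, 1 ≤ n → ∀ f : ℝ → ℂ, BL (1 / 2) f →
      ∀ x, |x| ≤ r * n → w0 b lam n x * ‖f x‖ ^ 2 ≤
        2 * Real.exp (-(2 * n)) * ∫ y, w0 b lam n y * ‖f y‖ ^ 2 := by
  have hp := Real.pi_pos
  obtain ⟨κ, hκ, hκ1, hgap⟩ := eta_gap b hb
  set E : ℝ := Real.exp (-(π + 1)) with hE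
  have hE0 : 0 < E := Real.exp_pos _
  have hE1 : E < 1 := by
    rw [hE, Real.exp_lt_one_iff]
    linarith
  set τ : ℝ := κ * E / 2 with hτ
  have hτ0 : 0 < τ := by positivity
  have hτ1 : τ < 1 := by
    rw [hτ]
    nlinarith
  -- continuity of the profile at the origin
  have hcont := (Metric.continuous_iff.mp continuous_eta) 0 τ hτ0
  obtain ⟨δ, hδ, hcont⟩ := hcont
  refine ⟨1 - τ, δ / (2 * b), by linarith, by linarith, by positivity, ?_⟩
  intro n hn f hf x hx
  have hn0 : (0 : ℝ) < n := by exact_mod_cast hn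
  set lam : ℝ := 1 - τ with hlam
  set I : ℝ := ∫ y, w0 b lam n y * ‖f y‖ ^ 2 with hI
  have hI0 : 0 ≤ I := integral_nonneg fun y => mul_nonneg (w0_nonneg _ _ _ _) (sq_nonneg _)
  -- the bound outside
  have hout : ∀ y, (n : ℝ) ≤ |y| → κ ^ (2 * n) * ‖f y‖ ^ 2 ≤ 2 * I := by
    intro y hy
    have h1 := tilt_all b lam hb hb2 n hn hf y
    refine le_trans ?_ h1
    apply mul_le_mul_of_nonneg_right _ (sq_nonneg _)
    unfold w0
    apply pow_le_pow_left₀ hκ.le
    have h2 : b ≤ |b / n * y| := by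
      rw [abs_mul, abs_of_pos (by positivity : 0 < b / n), div_mul_eq_mul_div, le_div_iff₀ hn0]
      exact mul_le_mul_of_nonneg_left hy hb.le
    have h3 := hgap _ h2
    have h4 := eta_nonneg (b / n * y)
    nlinarith
  set M : ℝ := Real.sqrt (2 * I / κ ^ (2 * n)) with hM
  have hMf : ∀ y, (n : ℝ) ≤ |y| → ‖f y‖ ≤ M := by
    intro y hy
    rw [hM]
    apply Real.le_sqrt_of_sq_le
    rw [le_div_iff₀ (by positivity), mul_comm]
    exact hout y hy
  have hgr := growth (by norm_num : (0 : ℝ) ≤ 1 / 2) hf n hn0 M hMf x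
  have hM2 : M ^ 2 = 2 * I / κ ^ (2 * n) := Real.sq_sqrt (by positivity)
  have h1 : ‖f x‖ ^ 2 ≤ 2 * I / κ ^ (2 * n) * Real.exp (2 * π * n) := by
    calc ‖f x‖ ^ 2 ≤ (M * Real.exp (2 * π * (1 / 2) * n)) ^ 2 :=
          pow_le_pow_left₀ (norm_nonneg _) hgr 2
      _ = M ^ 2 * Real.exp (2 * π * n) := by
          rw [mul_pow, ← Real.exp_nat_mul]
          congr 2
          push_cast
          ring
      _ = _ := by rw [hM2]
  have h2 : w0 b lam n x ≤ (κ * E) ^ (2 * n) := by
    unfold w0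
    apply pow_le_pow_left₀
    · have := base_pos lam (by linarith) (b / n * x)
      linarith
    · have h3 : dist (b / n * x) 0 < δ := by
        rw [dist_zero_right, Real.norm_eq_abs, abs_mul, abs_of_pos (by positivity : 0 < b / n)]
        calc b / n * |x| ≤ b / n * (δ / (2 * b) * n) := by gcongr
          _ = δ / 2 := by field_simp
          _ < δ := by linarith
      have h4 := hcont _ h3
      rw [eta_zero, Real.dist_eq, abs_lt] at h4
      have h5 := eta_le_one (b / n * x)
      have h6 : κ * E = 2 * τ := by rw [hτ]; ring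
      rw [h6]
      nlinarith
  calc w0 b lam n x * ‖f x‖ ^ 2 ≤ (κ * E) ^ (2 * n) *
        (2 * I / κ ^ (2 * n) * Real.exp (2 * π * n)) := by
        apply mul_le_mul h2 h1 (sq_nonneg _) (by positivity)
    _ = 2 * (E ^ (2 * n) * Real.exp (2 * π * n)) * I := by
        rw [mul_pow]
        field_simp
    _ = _ := by
        congr 2
        rw [hE, ← Real.exp_nat_mul, ← Real.exp_add]
        congr 1
        push_cast
        ring

end Q298.Gap
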