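import Pool.Agent.Q298.Gap.Fam
import Pool.Agent.Q298.Gap.Tilt

/-!
The inequality for the sine kernel.
-/

set_option autoImplicit false
set_option linter.unusedSectionVars false

namespace Q298.Gap

open MeasureTheory Filter Topology ComplexConjugate Real Q298.Mim Matrix
open scoped FourierTransform SchwartzMap ContDiff ComplexOrder MatrixOrder

variable {ι : Type*} [Fintype ι] [DecidableEq ι]

theorem ps_integrable (N : ℕ) (e : ι → ℤ) (i j : ι) (v : ℝ → ℝ) (hv : Continuous v) (C : ℝ)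
    (hC : ∀ x, |v x| ≤ C) :
    Integrable (fun x => (v x : ℂ) * (ps N e i x * conj (ps N e j x))) := by
  have h1 : Integrable (fun x => ps N e i x) := by
    unfold ps
    exact (vt N).integrable.comp_sub_right _
  obtain ⟨D, hD, hdec⟩ := (BL_vt N).decay
  have hbd : ∀ x, ‖conj (ps N e j x)‖ ≤ D := by
    intro x
    rw [RCLike.norm_conj]
    refine (hdec _).trans ?_
    apply div_le_self hD
    have := sq_nonneg (x - e j)
    linarith
  have h2 : Integrable (fun x => ps N e i x * conj (ps N e j x)) := by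
    refine h1.mul_bdd (c := D) ?_ (ae_of_all _ hbd)
    exact (Complex.continuous_conj.comp (continuous_ps N e j)).aestronglyMeasurable
  refine h2.bdd_mul (c := C) ?_ ?_
  · exact (Complex.continuous_ofReal.comp hv).aestronglyMeasurable
  · apply ae_of_all
    intro x
    rw [Complex.norm_real, Real.norm_eq_abs]
    exact hC x

theorem form_A (φ : ι → ℝ → ℂ) (v : ℝ → ℝ)
    (hint : ∀ i j, Integrable (fun x => (v x : ℂ) * (φ i x * conj (φ j x)))) (c : ι → ℂ) :
    star c ⬝ᵥ ((1 + gram φ v) *ᵥ c) =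
      ((∑ i, ‖c i‖ ^ 2 + ∫ x, v x * ‖∑ j, c j * φ j x‖ ^ 2 : ℝ) : ℂ) := by
  rw [Matrix.add_mulVec, _root_.dotProduct_add, gram_form φ v hint, Matrix.one_mulVec,
    Complex.ofReal_add]
  congr 1
  unfold dotProduct
  push_cast
  apply Finset.sum_congr rfl
  intro i _
  rw [Pi.star_apply, Complex.star_def, mul_comm, Complex.mul_conj, Complex.normSq_eq_norm_sq]
  push_cast
  rfl

theorem v0_bd (b lam : ℝ) (hl0 : 0 ≤ lam) (hl1 : lam < 1) (n : ℕ) (x : ℝ) :
    |w0 b lam n x - 1| ≤ 1 := by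
  have h1 := w0_le_one b lam hl0 hl1 n x
  have h2 := w0_nonneg b lam n x
  rw [abs_le]
  constructor <;> linarith

/-- The lower bound of the quadratic form. -/
theorem form_ge (b lam : ℝ) (hl0 : 0 ≤ lam) (hl1 : lam < 1) (n N : ℕ) (e : ι → ℤ)
    (he : Function.Injective e) (c : ι → ℂ) :
    ∫ x, w0 b lam n x * ‖∑ j, c j * ps N e j x‖ ^ 2 ≤
      ∑ i, ‖c i‖ ^ 2 + ∫ x, (w0 b lam n x - 1) * ‖∑ j, c j * ps N e j x‖ ^ 2 ∧
    (1 - lam) ^ (2 * n) * ∑ i, ‖c i‖ ^ 2 ≤
      ∑ i, ‖c i‖ ^ 2 + ∫ x, (w0 b lam n x - 1) * ‖∑ j, c j * ps N e j x‖ ^ 2 := by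
  have hf := BL_ps N e c
  set f : ℝ → ℂ := fun x => ∑ i, c i * ps N e i x with hfdef
  have hB := bessel_ps N e he c
  have hI := hf.integrable_sq
  have hI1 : Integrable (fun x => w0 b lam n x * ‖f x‖ ^ 2) := by
    refine hI.bdd_mul (c := 1) (continuous_w0 b lam n).aestronglyMeasurable ?_
    apply ae_of_all
    intro x
    rw [Real.norm_of_nonneg (w0_nonneg b lam n x)]
    exact w0_le_one b lam hl0 hl1 n x
  have h1 : ∫ x, (w0 b lam n x - 1) * ‖f x‖ ^ 2 =
      (∫ x, w0 b lam n x * ‖f x‖ ^ 2) - ∫ x, ‖f x‖ ^ 2 := by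
    rw [← integral_sub hI1 hI]
    congr 1
    ext x
    ring
  have h2 : (1 - lam) ^ (2 * n) * ∫ x, ‖f x‖ ^ 2 ≤ ∫ x, w0 b lam n x * ‖f x‖ ^ 2 := by
    rw [← integral_const_mul]
    apply integral_mono (hI.const_mul _) hI1
    intro x
    exact mul_le_mul_of_nonneg_right (w0_ge b lam hl0 hl1 n x) (sq_nonneg _)
  have h3 : (1 - lam) ^ (2 * n) ≤ 1 := pow_le_one₀ (by linarith) (by linarith)
  have hI0 : 0 ≤ ∫ x, ‖f x‖ ^ 2 := integral_nonneg fun _ => sq_nonneg _
  constructor
  · rw [h1]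
    linarith
  · rw [h1]
    nlinarith

/-- The bound for the kernel of the tilted process. -/
noncomputable def kap (r : ℝ) (n : ℕ) (x : ℝ) : ℝ :=
  if |x| ≤ r * n then 2 * Real.exp (-(2 * n)) else 2

theorem kap_nonneg (r : ℝ) (n : ℕ) (x : ℝ) : 0 ≤ kap r n x := by
  unfold kap
  split_ifs <;> positivity

theorem kap_le (r : ℝ) (n : ℕ) (x : ℝ) : kap r n x ≤ 2 := by
  unfold kap
  split_ifs
  · have : Real.exp (-(2 * (n : ℝ))) ≤ 1 := by
      rw [Real.exp_le_one_iff]
      have : (0 : ℝ) ≤ n := Nat.cast_nonneg n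
      linarith
    linarith
  · exact le_rfl

theorem kap_meas (r : ℝ) (n : ℕ) : Measurable (kap r n) := by
  unfold kap
  apply Measurable.ite
  · exact (isClosed_le continuous_abs continuous_const).measurableSet
  · exact measurable_const
  · exact measurable_const

/-- The hypothesis on the weight. -/
def Tilted (b lam r : ℝ) (n : ℕ) : Prop :=
  ∀ f : ℝ → ℂ, BL (1 / 2) f → ∀ x, w0 b lam n x * ‖f x‖ ^ 2 ≤
    kap r n x * ∫ y, w0 b lam n y * ‖f y‖ ^ 2

theorem exists_tilted (b : ℝ) (hb : 0 < b) (hb2 : b ≤ 1 / 2) :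
    ∃ lam r : ℝ, 0 ≤ lam ∧ lam < 1 ∧ 0 < r ∧ ∀ n : ℕ, 1 ≤ n → Tilted b lam r n := by
  obtain ⟨lam, r, h0, h1, hr, h⟩ := exists_tilt b hb hb2
  refine ⟨lam, r, h0, h1, hr, ?_⟩
  intro n hn f hf x
  unfold kap
  split_ifs with hx
  · exact h n hn f hf x hx
  · exact tilt_all b lam hb hb2 n hn hf x

theorem ineq_fin (b lam r : ℝ) (hl0 : 0 ≤ lam) (hl1 : lam < 1) (n : ℕ) (ht : Tilted b lam r n)
    (q : ℝ → ℝ) (hq0 : ∀ x, 0 ≤ q x) (hqc : Continuous q) (hqI : Integrable q) (Cq : ℝ)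
    (hqb : ∀ x, q x ≤ Cq) (N : ℕ) (e : ι → ℤ) (he : Function.Injective e) :
    DD (kf (ps N e)) (fun x => (w0 b lam n x - 1) + w0 b lam n x * q x) ≤
      DD (kf (ps N e)) (fun x => w0 b lam n x - 1) * Real.exp (∫ x, q x * kap r n x) := by
  have hwc := continuous_w0 b lam n
  have hi0 : ∀ i j, Integrable (fun x => ((w0 b lam n x - 1 : ℝ) : ℂ) *
      (ps N e i x * conj (ps N e j x))) := fun i j =>
    ps_integrable N e i j (fun x => w0 b lam n x - 1) (hwc.sub continuous_const) 1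
      (v0_bd b lam hl0 hl1 n)
  have hiu : ∀ i j, Integrable (fun x => ((w0 b lam n x * q x : ℝ) : ℂ) *
      (ps N e i x * conj (ps N e j x))) := fun i j =>
    ps_integrable N e i j (fun x => w0 b lam n x * q x) (hwc.mul hqc) Cq (by
      intro x
      rw [abs_of_nonneg (mul_nonneg (w0_nonneg b lam n x) (hq0 x))]
      have h1 := w0_le_one b lam hl0 hl1 n x
      have h2 := hq0 x
      have h3 := hqb x
      nlinarith)
  have hi1 : ∀ i j, Integrable (fun x => (((w0 b lam n x - 1) + w0 b lam n x * q x : ℝ) : ℂ) *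
      (ps N e i x * conj (ps N e j x))) := by
    intro i j
    refine ((hi0 i j).add (hiu i j)).congr (ae_of_all _ fun x => ?_)
    simp only [Pi.add_apply]
    push_cast
    ring
  rw [DD_kf _ _ hi1, DD_kf _ _ hi0, gram_add _ _ _ hi0 hiu, ← add_assoc]
  set A : Matrix ι ι ℂ := 1 + gram (ps N e) (fun x => w0 b lam n x - 1) with hA
  have hApd : A.PosDef := by
    apply Matrix.PosDef.of_dotProduct_mulVec_pos
    · exact Matrix.isHermitian_one.add (gram_hermitian _ _)
    · intro c hc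
      rw [hA, form_A _ _ hi0]
      have h1 := (form_ge b lam hl0 hl1 n N e he c).2
      have h2 : 0 < ∑ i, ‖c i‖ ^ 2 := by
        obtain ⟨i, hi⟩ := Function.ne_iff.mp hc
        apply Finset.sum_pos' (fun _ _ => sq_nonneg _)
        refine ⟨i, Finset.mem_univ i, ?_⟩
        rw [Pi.zero_apply] at hi
        have := norm_pos_iff.mpr hi
        positivity
      have h3 : 0 < (1 - lam) ^ (2 * n) := pow_pos (by linarith) _
      have h4 : 0 < ∑ i, ‖c i‖ ^ 2 + ∫ x, (w0 b lam n x - 1) * ‖∑ j, c j * ps N e j x‖ ^ 2 :=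
        lt_of_lt_of_le (mul_pos h3 h2) h1
      exact_mod_cast h4
  have hwpos : ∀ x, 0 < w0 b lam n x := fun x =>
    lt_of_lt_of_le (pow_pos (by linarith) _) (w0_ge b lam hl0 hl1 n x)
  have hmul : ∀ x, w0 b lam n x * q x * (kap r n x / w0 b lam n x) = q x * kap r n x := by
    intro x
    have := (hwpos x).ne'
    field_simp
  have hE : Integrable (fun x => q x * kap r n x) := by
    refine hqI.mul_bdd (c := 2) (kap_meas r n).aestronglyMeasurable ?_
    apply ae_of_all
    intro x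
    rw [Real.norm_of_nonneg (kap_nonneg r n x)]
    exact kap_le r n x
  have h := det_ratio (ps N e) (fun x => w0 b lam n x * q x)
    (fun x => mul_nonneg (w0_nonneg b lam n x) (hq0 x)) hiu A hApd
    (fun x => kap r n x / w0 b lam n x)
    (fun x => div_nonneg (kap_nonneg r n x) (w0_nonneg b lam n x))
    (by
      intro c x
      rw [hA, form_A _ _ hi0, Complex.ofReal_re, div_mul_eq_mul_div, le_div_iff₀ (hwpos x),
        mul_comm]
      refine (ht _ (BL_ps N e c) x).trans ?_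
      apply mul_le_mul_of_nonneg_left _ (kap_nonneg r n x)
      exact (form_ge b lam hl0 hl1 n N e he c).1)
    (by
      refine hE.congr (ae_of_all _ fun x => ?_)
      simp only
      rw [hmul])
  simp_rw [hmul] at h
  exact h

/-- The sine kernel. -/
noncomputable def ks (x y : ℝ) : ℂ := ((Real.sinc (Real.pi * (x - y)) : ℝ) : ℂ)

theorem dk_kt (N n : ℕ) (x : Fin n → ℝ) : |dk (kt N) n x| ≤ 1 := by
  have h1 := (tendsto_dk (fun K => kK N K) (kt N) (kK_tendsto N) n x).abs
  apply le_of_tendsto h1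
  apply Eventually.of_forall
  intro K
  exact dk_kf _ (kK_diag N K) n x

theorem dk_ks (n : ℕ) (x : Fin n → ℝ) : |dk ks n x| ≤ 1 := by
  have h1 := (tendsto_dk (fun N => kt N) ks kt_tendsto n x).abs
  apply le_of_tendsto h1
  apply Eventually.of_forall
  intro N
  exact dk_kt N n x

theorem limit_ineq (v1 v0 : ℝ → ℝ) (h1 : Integrable v1) (h0 : Integrable v0) (E : ℝ)
    (h : ∀ N K, DD (kK N K) v1 ≤ DD (kK N K) v0 * E) : DD ks v1 ≤ DD ks v0 * E := by
  have hc : ∀ N K, Continuous fun p : ℝ × ℝ => kK N K p.1 p.2 := fun N K =>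
    continuous_kf _ (continuous_ps N _)
  have hN : ∀ N, DD (kt N) v1 ≤ DD (kt N) v0 * E := by
    intro N
    have e1 := DD_tendsto (fun K => kK N K) (kt N) (hc N)
      (fun K n x => dk_kf _ (kK_diag N K) n x) (kK_tendsto N) v1 h1
    have e0 := (DD_tendsto (fun K => kK N K) (kt N) (hc N)
      (fun K n x => dk_kf _ (kK_diag N K) n x) (kK_tendsto N) v0 h0).mul_const E
    exact le_of_tendsto_of_tendsto' e1 e0 (h N)
  have e1 := DD_tendsto (fun N => kt N) ks kt_cont (fun N n x => dk_kt N n x) kt_tendsto v1 h1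
  have e0 := (DD_tendsto (fun N => kt N) ks kt_cont (fun N n x => dk_kt N n x) kt_tendsto v0
    h0).mul_const E
  exact le_of_tendsto_of_tendsto' e1 e0 hN

theorem sine_ineq (b lam r : ℝ) (hb : 0 < b) (hl0 : 0 ≤ lam) (hl1 : lam < 1) (n : ℕ) (hn : 1 ≤ n)
    (ht : Tilted b lam r n)
    (q : ℝ → ℝ) (hq0 : ∀ x, 0 ≤ q x) (hqc : Continuous q) (hqI : Integrable q) (Cq : ℝ)
    (hqb : ∀ x, q x ≤ Cq) :
    DD ks (fun x => (w0 b lam n x - 1) + w0 b lam n x * q x) ≤
      DD ks (fun x => w0 b lam n x - 1) * Real.exp (∫ x, q x * kap r n x) := by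
  have h0 : Integrable (fun x => w0 b lam n x - 1) := by
    have h := (BL_w0 b lam hb n hn).integrable.re
    refine h.neg.congr (ae_of_all _ fun x => ?_)
    simp only [Pi.neg_apply, RCLike.re_to_complex, Complex.ofReal_re]
    ring
  have hu : Integrable (fun x => w0 b lam n x * q x) := by
    refine hqI.bdd_mul (c := 1) (continuous_w0 b lam n).aestronglyMeasurable ?_
    apply ae_of_all
    intro x
    rw [Real.norm_of_nonneg (w0_nonneg b lam n x)]
    exact w0_le_one b lam hl0 hl1 n x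
  apply limit_ineq _ _ (h0.add hu) h0
  intro N K
  exact ineq_fin b lam r hl0 hl1 n ht q hq0 hqc hqI Cq hqb N _ Subtype.val_injective

theorem Dn_ks (v : ℝ → ℝ) (n : ℕ) : Dn ks v n = Fn v n := by
  unfold Dn Fn
  congr 1
  ext x
  congr 1
  unfold dk ks
  have h := (Complex.ofRealHom : ℝ →+* ℂ).map_det
    (Matrix.of fun a b : Fin n => Real.sinc (Real.pi * (x a - x b)))
  rw [Complex.ofRealHom_eq_coe] at h
  have h2 : (Matrix.of fun a b : Fin n => ((Real.sinc (Real.pi * (x a - x b)) : ℝ) : ℂ)) =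
      (Complex.ofRealHom : ℝ →+* ℂ).mapMatrix
        (Matrix.of fun a b : Fin n => Real.sinc (Real.pi * (x a - x b))) := by
    ext a b
    rfl
  rw [h2, ← h, Complex.ofReal_re]

theorem abs_Fn_le (v : ℝ → ℝ) (hv : Integrable v) (n : ℕ) : |Fn v n| ≤ (∫ x, |v x|) ^ n := by
  rw [← Dn_ks]
  exact abs_Dn_le ks n (dk_ks n) v hv

theorem DD_ks (v : ℝ → ℝ) : DD ks v = ∑' n : ℕ, Fn v n / n.factorial := by
  unfold DD
  simp_rw [Dn_ks]

/-- The exponent tends to zero. -/
theorem exponent_tendsto (r : ℝ) (hr : 0 < r) (q : ℝ → ℝ) (hqI : Integrable q) :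
    Tendsto (fun n : ℕ => ∫ x, q x * kap r n x) atTop (𝓝 0) := by
  have h0 : (0 : ℝ) = ∫ _x : ℝ, (0 : ℝ) := by simp
  rw [h0]
  apply tendsto_integral_of_dominated_convergence (fun x => |q x| * 2)
  · intro n
    exact hqI.aestronglyMeasurable.mul (kap_meas r n).aestronglyMeasurable
  · exact hqI.abs.mul_const _
  · intro n
    apply ae_of_all
    intro x
    rw [norm_mul, Real.norm_eq_abs, Real.norm_of_nonneg (kap_nonneg r n x)]
    exact mul_le_mul_of_nonneg_left (kap_le r n x) (abs_nonneg _)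
  · apply ae_of_all
    intro x
    have h1 : Tendsto (fun n : ℕ => kap r n x) atTop (𝓝 0) := by
      have h2 : ∀ᶠ n : ℕ in atTop, kap r n x = 2 * Real.exp (-(2 * n)) := by
        obtain ⟨m, hm⟩ := exists_nat_gt (|x| / r)
        filter_upwards [eventually_ge_atTop m] with n hn
        unfold kap
        rw [if_pos]
        rw [div_lt_iff₀ hr] at hm
        have : (m : ℝ) ≤ n := by exact_mod_cast hn
        nlinarith
      have h3 : Tendsto (fun n : ℕ => 2 * Real.exp (-(2 * (n : ℝ)))) atTop (𝓝 (2 * 0)) := by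
        apply Tendsto.const_mul
        apply Real.tendsto_exp_neg_atTop_nhds_zero.comp
        exact tendsto_natCast_atTop_atTop.const_mul_atTop (by norm_num)
      rw [mul_zero] at h3
      refine h3.congr' ?_
      filter_upwards [h2] with n hn
      rw [hn]
    have h4 := h1.const_mul (q x)
    rwa [mul_zero] at h4

end Q298.Gap
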