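import Pool.Agent.Q298.Mim.Ker

/-!
Determinants of positive matrices and Gram matrices.
-/

set_option autoImplicit false
set_option linter.unusedSectionVars false

namespace Q298.Gap

open Finset MeasureTheory ComplexConjugate Matrix Q298.Mim
open scoped ComplexOrder MatrixOrder

variable {ι : Type*} [Fintype ι] [DecidableEq ι]

theorem exists_C (A : Matrix ι ι ℂ) (hA : A.PosDef) : ∃ C : Matrix ι ι ℂ, Cᴴ * A * C = 1 := by
  obtain ⟨B, hB⟩ := CStarAlgebra.nonneg_iff_eq_star_mul_self.mp hA.posSemidef.nonneg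
  have hdet : A.det ≠ 0 := hA.det_pos.ne'
  have hBdet : B.det ≠ 0 := by
    intro h
    apply hdet
    rw [hB, Matrix.det_mul, h, mul_zero]
  have hBu : IsUnit B.det := isUnit_iff_ne_zero.mpr hBdet
  refine ⟨B⁻¹, ?_⟩
  rw [hB, Matrix.star_eq_conjTranspose]
  calc (B⁻¹)ᴴ * (Bᴴ * B) * B⁻¹ = ((B⁻¹)ᴴ * Bᴴ) * (B * B⁻¹) := by
        simp only [Matrix.mul_assoc]
    _ = 1 := by
        rw [← Matrix.conjTranspose_mul, Matrix.mul_nonsing_inv _ hBu, Matrix.conjTranspose_one,
          Matrix.one_mul]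

theorem det_one_add (M : Matrix ι ι ℂ) (hM : M.IsHermitian) :
    (1 + M).det = ((∏ i, (1 + hM.eigenvalues i) : ℝ) : ℂ) := by
  set U : Matrix ι ι ℂ := (hM.eigenvectorUnitary : Matrix ι ι ℂ) with hU
  have hU2 : U * star U = 1 := Unitary.coe_mul_star_self hM.eigenvectorUnitary
  have hS : M = U * diagonal (RCLike.ofReal ∘ hM.eigenvalues) * star U := by
    have h := hM.spectral_theorem
    rw [Unitary.conjStarAlgAut_apply] at h
    exact h
  have h1 : 1 + M = U * (1 + diagonal (RCLike.ofReal ∘ hM.eigenvalues)) * star U := by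
    rw [Matrix.mul_add, Matrix.add_mul, Matrix.mul_one, hU2]
    nth_rewrite 1 [hS]
    rfl
  have h2 : (U * star U).det = 1 := by rw [hU2, Matrix.det_one]
  rw [Matrix.det_mul] at h2
  rw [h1, Matrix.det_mul, Matrix.det_mul, mul_comm U.det, mul_assoc, h2, mul_one]
  have h3 : (1 : Matrix ι ι ℂ) + diagonal (RCLike.ofReal ∘ hM.eigenvalues) =
      diagonal (fun i => ((1 + hM.eigenvalues i : ℝ) : ℂ)) := by
    rw [← Matrix.diagonal_one, Matrix.diagonal_add]
    congr 1
    ext i
    simp
  rw [h3, Matrix.det_diagonal]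
  push_cast
  rfl

theorem det_one_add_le (M : Matrix ι ι ℂ) (hM : M.PosSemidef) :
    (1 + M).det.re ≤ Real.exp M.trace.re := by
  rw [det_one_add M hM.isHermitian, Complex.ofReal_re]
  have h1 : M.trace.re = ∑ i, hM.isHermitian.eigenvalues i := by
    rw [hM.isHermitian.trace_eq_sum_eigenvalues]
    simp
  rw [h1, Real.exp_sum]
  apply Finset.prod_le_prod
  · intro i _
    linarith [hM.eigenvalues_nonneg i]
  · intro i _
    rw [add_comm]
    exact Real.add_one_le_exp _

theorem det_psd (M : Matrix ι ι ℂ) (hM : M.PosSemidef) (hd : ∀ i, (M i i).re ≤ 1) :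
    0 ≤ M.det.re ∧ M.det.re ≤ 1 := by
  rw [hM.isHermitian.det_eq_prod_eigenvalues]
  have h0 : (∏ i, ((hM.isHermitian.eigenvalues i : ℝ) : ℂ)) =
      ((∏ i, hM.isHermitian.eigenvalues i : ℝ) : ℂ) := by
    push_cast
    rfl
  change 0 ≤ (∏ i, ((hM.isHermitian.eigenvalues i : ℝ) : ℂ)).re ∧
    (∏ i, ((hM.isHermitian.eigenvalues i : ℝ) : ℂ)).re ≤ 1
  rw [h0, Complex.ofReal_re]
  constructor
  · exact Finset.prod_nonneg fun i _ => hM.eigenvalues_nonneg i
  · have h1 : M.trace.re = ∑ i, hM.isHermitian.eigenvalues i := by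
      rw [hM.isHermitian.trace_eq_sum_eigenvalues]
      simp
    have h2 : M.trace.re ≤ Fintype.card ι := by
      rw [Matrix.trace, Complex.re_sum]
      calc ∑ i, (M.diag i).re ≤ ∑ _i : ι, (1 : ℝ) := Finset.sum_le_sum fun i _ => hd i
        _ = Fintype.card ι := by simp
    calc ∏ i, hM.isHermitian.eigenvalues i ≤ ∏ i, Real.exp (hM.isHermitian.eigenvalues i - 1) := by
          apply Finset.prod_le_prod
          · intro i _
            exact hM.eigenvalues_nonneg i
          · intro i _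
            have := Real.add_one_le_exp (hM.isHermitian.eigenvalues i - 1)
            linarith
      _ = Real.exp (∑ i, (hM.isHermitian.eigenvalues i - 1)) := (Real.exp_sum _ _).symm
      _ ≤ 1 := by
          rw [Real.exp_le_one_iff, Finset.sum_sub_distrib, ← h1]
          simp only [Finset.sum_const, Finset.card_univ, nsmul_eq_mul, mul_one]
          linarith

/-- The Gram matrix for a weight. -/
noncomputable def gram (φ : ι → ℝ → ℂ) (v : ℝ → ℝ) : Matrix ι ι ℂ :=
  Matrix.of fun i j => ∫ x, (v x : ℂ) * (φ j x * conj (φ i x))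

theorem gram_hermitian (φ : ι → ℝ → ℂ) (v : ℝ → ℝ) : (gram φ v).IsHermitian := by
  ext i j
  unfold gram
  rw [Matrix.conjTranspose_apply, Matrix.of_apply, Matrix.of_apply, Complex.star_def,
    ← integral_conj]
  congr 1
  ext x
  simp only [map_mul, Complex.conj_ofReal, Complex.conj_conj]
  ring

/-- The quadratic form of the Gram matrix. -/
theorem gram_form (φ : ι → ℝ → ℂ) (v : ℝ → ℝ)
    (hint : ∀ i j, Integrable (fun x => (v x : ℂ) * (φ i x * conj (φ j x)))) (c : ι → ℂ) :
    star c ⬝ᵥ (gram φ v *ᵥ c) = ((∫ x, v x * ‖∑ j, c j * φ j x‖ ^ 2 : ℝ) : ℂ) := by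
  have h1 : ∀ x, ((v x * ‖∑ j, c j * φ j x‖ ^ 2 : ℝ) : ℂ) =
      ∑ i, ∑ j, (c i * conj (c j)) * ((v x : ℂ) * (φ i x * conj (φ j x))) := by
    intro x
    push_cast
    rw [← Complex.ofReal_pow, ← Complex.normSq_eq_norm_sq, ← Complex.mul_conj]
    simp only [map_sum, map_mul]
    rw [sum_mul_sum, mul_sum]
    apply sum_congr rfl
    intro i _
    rw [mul_sum]
    apply sum_congr rfl
    intro j _
    ring
  rw [← integral_complex_ofReal]
  simp_rw [h1]
  rw [integral_finsetSum _ fun a _ => integrable_finsetSum _ fun b _ =>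
    (hint a b).const_mul _]
  have h2 : ∀ i, ∫ x, ∑ j, (c i * conj (c j)) * ((v x : ℂ) * (φ i x * conj (φ j x))) =
      ∑ j, (c i * conj (c j)) * gram φ v j i := by
    intro i
    rw [integral_finsetSum _ fun b _ => (hint i b).const_mul _]
    apply sum_congr rfl
    intro j _
    rw [integral_const_mul]
    rfl
  simp_rw [h2]
  rw [sum_comm]
  unfold dotProduct mulVec dotProduct
  apply sum_congr rfl
  intro j _
  rw [mul_sum]
  apply sum_congr rfl
  intro i _
  rw [Pi.star_apply, Complex.star_def]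
  ring

theorem gram_psd (φ : ι → ℝ → ℂ) (v : ℝ → ℝ) (hv : ∀ x, 0 ≤ v x)
    (hint : ∀ i j, Integrable (fun x => (v x : ℂ) * (φ i x * conj (φ j x)))) :
    (gram φ v).PosSemidef := by
  apply Matrix.PosSemidef.of_dotProduct_mulVec_nonneg (gram_hermitian φ v)
  intro c
  rw [gram_form φ v hint]
  have : 0 ≤ ∫ x, v x * ‖∑ j, c j * φ j x‖ ^ 2 :=
    integral_nonneg fun x => mul_nonneg (hv x) (sq_nonneg _)
  exact_mod_cast this

theorem gram_add (φ : ι → ℝ → ℂ) (v u : ℝ → ℝ)
    (hv : ∀ i j, Integrable (fun x => (v x : ℂ) * (φ i x * conj (φ j x))))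
    (hu : ∀ i j, Integrable (fun x => (u x : ℂ) * (φ i x * conj (φ j x)))) :
    gram φ (fun x => v x + u x) = gram φ v + gram φ u := by
  ext i j
  unfold gram
  rw [Matrix.add_apply, Matrix.of_apply, Matrix.of_apply, Matrix.of_apply,
    ← integral_add (hv j i) (hu j i)]
  congr 1
  ext x
  push_cast
  ring

/-- The ratio of the determinants. -/
theorem det_ratio (φ : ι → ℝ → ℂ) (u : ℝ → ℝ) (hu : ∀ x, 0 ≤ u x)
    (hint : ∀ i j, Integrable (fun x => (u x : ℂ) * (φ i x * conj (φ j x))))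
    (A : Matrix ι ι ℂ) (hA : A.PosDef) (κ : ℝ → ℝ) (hκ0 : ∀ x, 0 ≤ κ x)
    (hκ : ∀ (c : ι → ℂ) (x : ℝ), ‖∑ j, c j * φ j x‖ ^ 2 ≤ κ x * (star c ⬝ᵥ (A *ᵥ c)).re)
    (hI : Integrable (fun x => u x * κ x)) :
    (A + gram φ u).det.re ≤ A.det.re * Real.exp (∫ x, u x * κ x) := by
  obtain ⟨C, hC⟩ := exists_C A hA
  have hH : (gram φ u).PosSemidef := gram_psd φ u hu hint
  set M : Matrix ι ι ℂ := Cᴴ * gram φ u * C with hM
  have hMp : M.PosSemidef := hH.conjTranspose_mul_mul_same C
  have h1 : Cᴴ * (A + gram φ u) * C = 1 + M := by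
    rw [Matrix.mul_add, Matrix.add_mul, hC]
  have h2 : star C.det * (A + gram φ u).det * C.det = (1 + M).det := by
    rw [← h1, Matrix.det_mul, Matrix.det_mul, Matrix.det_conjTranspose]
  have h3 : star C.det * A.det * C.det = 1 := by
    rw [← Matrix.det_one (n := ι), ← hC, Matrix.det_mul, Matrix.det_mul, Matrix.det_conjTranspose]
  have h4 : (A + gram φ u).det = A.det * (1 + M).det := by
    rw [← h2]
    linear_combination (-(A + gram φ u).det) * h3
  have hAdet : A.det = ((A.det.re : ℝ) : ℂ) := by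
    have := hA.det_pos
    rw [Complex.lt_def] at this
    apply Complex.ext
    · simp
    · rw [Complex.ofReal_im, ← this.2]
      rfl
  have hAre : 0 < A.det.re := by
    have := hA.det_pos
    rw [Complex.lt_def] at this
    exact this.1
  rw [h4, hAdet, Complex.re_ofReal_mul, Complex.ofReal_re]
  apply mul_le_mul_of_nonneg_left _ hAre.le
  refine (det_one_add_le M hMp).trans ?_
  apply Real.exp_le_exp.mpr
  -- the trace
  set ψ : ι → ℝ → ℂ := fun i x => ∑ j, C j i * φ j x with hψ
  have hentry : ∀ i, M i i = ((∫ x, u x * ‖ψ i x‖ ^ 2 : ℝ) : ℂ) := by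
    intro i
    have h5 := gram_form φ u hint (fun j => C j i)
    rw [hψ]
    simp only
    rw [← h5, hM, Matrix.mul_apply]
    unfold dotProduct mulVec dotProduct
    rw [show (∑ j, (Cᴴ * gram φ u) i j * C j i) =
      ∑ j, ∑ k, star (C k i) * gram φ u k j * C j i by
        apply sum_congr rfl
        intro j _
        rw [Matrix.mul_apply, sum_mul]
        apply sum_congr rfl
        intro k _
        rw [Matrix.conjTranspose_apply]]
    rw [sum_comm]
    apply sum_congr rfl
    intro k _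
    rw [mul_sum]
    apply sum_congr rfl
    intro j _
    rw [Pi.star_apply]
    ring
  have hψI : ∀ i, Integrable (fun x => u x * ‖ψ i x‖ ^ 2) := by
    intro i
    have h5 : ∀ x, u x * ‖ψ i x‖ ^ 2 =
        (∑ a, ∑ b, (C a i * conj (C b i)) * ((u x : ℂ) * (φ a x * conj (φ b x)))).re := by
      intro x
      rw [← Complex.ofReal_re (u x * ‖ψ i x‖ ^ 2)]
      congr 1
      push_cast
      rw [← Complex.ofReal_pow, ← Complex.normSq_eq_norm_sq, ← Complex.mul_conj, hψ]
      simp only [map_sum, map_mul]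
      rw [sum_mul_sum, mul_sum]
      apply sum_congr rfl
      intro i _
      rw [mul_sum]
      apply sum_congr rfl
      intro j _
      ring
    simp_rw [h5]
    exact (integrable_finsetSum _ fun a _ => integrable_finsetSum _ fun b _ =>
      (hint a b).const_mul _).re
  have htr : M.trace.re = ∫ x, ∑ i, u x * ‖ψ i x‖ ^ 2 := by
    rw [integral_finsetSum _ fun i _ => hψI i, Matrix.trace, Complex.re_sum]
    apply sum_congr rfl
    intro i _
    rw [Matrix.diag_apply, hentry, Complex.ofReal_re]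
  rw [htr]
  apply integral_mono (integrable_finsetSum _ fun i _ => hψI i) hI
  intro x
  simp only
  rw [← mul_sum]
  apply mul_le_mul_of_nonneg_left _ (hu x)
  -- pointwise
  set h : ℝ := ∑ i, ‖ψ i x‖ ^ 2 with hh
  have hh0 : 0 ≤ h := sum_nonneg fun _ _ => sq_nonneg _
  set c : ι → ℂ := fun j => ∑ i, C j i * conj (ψ i x) with hc
  have e1 : ∑ j, c j * φ j x = (h : ℂ) := by
    rw [hc]
    simp only
    have : ∀ j, (∑ i, C j i * conj (ψ i x)) * φ j x = ∑ i, (C j i * φ j x) * conj (ψ i x) := by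
      intro j
      rw [sum_mul]
      apply sum_congr rfl
      intro i _
      ring
    simp_rw [this]
    rw [sum_comm, hh]
    push_cast
    apply sum_congr rfl
    intro i _
    rw [← sum_mul, ← Complex.ofReal_pow, ← Complex.normSq_eq_norm_sq, ← Complex.mul_conj]
  have e2 : star c ⬝ᵥ (A *ᵥ c) = (h : ℂ) := by
    have hcv : c = C *ᵥ (fun i => conj (ψ i x)) := by
      ext j
      rfl
    rw [hcv, Matrix.star_mulVec, ← Matrix.dotProduct_mulVec, Matrix.mulVec_mulVec,
      Matrix.mulVec_mulVec, hC, Matrix.one_mulVec, hh]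
    unfold dotProduct
    push_cast
    apply sum_congr rfl
    intro i _
    rw [Pi.star_apply, Complex.star_def, Complex.conj_conj, ← Complex.ofReal_pow,
      ← Complex.normSq_eq_norm_sq, ← Complex.mul_conj]
  have e3 := hκ c x
  rw [e1, e2, Complex.norm_real, Real.norm_of_nonneg hh0, Complex.ofReal_re] at e3
  rcases hh0.eq_or_lt with h0 | h0
  · rw [← h0]
    exact hκ0 x
  · nlinarith

end Q298.Gap
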