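import Pool.Agent.Q298.Gap.Proc
import Pool.Agent.Q298.Gap.Ineq
import Pool.Agent.Q298.Mim.Main

/-!
A process which mimics the sine process misses every interval with positive probability.
-/

set_option autoImplicit false

namespace Q298.Gap

open MeasureTheory Filter Topology ComplexConjugate Real Q298.Mim
open scoped FourierTransform SchwartzMap ENNReal

theorem mim_prod {Ω : Type*} [MeasurableSpace Ω] (P : Measure Ω) [IsProbabilityMeasure P]
    (live : ℕ → Set Ω) (pos : ℕ → Ω → ℝ) (B : ℝ)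
    (hmim : ∀ n : ℕ, 1 ≤ n → ∀ η : 𝓢(EuclideanSpace ℝ (Fin n), ℂ),
      (∀ ξ, (𝓕 η) ξ ≠ 0 → ∀ i, |ξ i| ≤ B) →
      ∫ ω, ∑' f : Fin n ↪ ℕ, {ω | ∀ i, ω ∈ live (f i)}.indicator
        (fun ω => η (WithLp.toLp 2 fun i => pos (f i) ω)) ω ∂P =
      ∫ x : EuclideanSpace ℝ (Fin n), η x *
        ((Matrix.of fun i j : Fin n => Real.sinc (Real.pi * (x i - x j))).det : ℝ))
    (v : ℝ → ℝ) (hv : BL B (fun x => ((v x : ℝ) : ℂ))) (n : ℕ) (hn : 1 ≤ n) :
    ∫ ω, ∑' f : Fin n ↪ ℕ, ∏ i, WW live pos v (f i) ω ∂P = Fn v n := by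
  obtain ⟨Wf, hWs, hWz, _, hWeq⟩ := hv.exists_inv
  obtain ⟨η, hη1, hη2⟩ := exists_test n B Wf hWs hWz
  have hη3 : ∀ x, η x = ∏ i, (v (x i) : ℂ) := by
    intro x
    rw [hη2]
    apply Finset.prod_congr rfl
    intro i _
    rw [hWeq]
  have h1 := hmim n hn η hη1
  rw [sine_side n v η hη3] at h1
  have h2 : ∀ ω, ∑' f : Fin n ↪ ℕ, {ω | ∀ i, ω ∈ live (f i)}.indicator
      (fun ω => η (WithLp.toLp 2 fun i => pos (f i) ω)) ω =
      ((∑' f : Fin n ↪ ℕ, ∏ i, WW live pos v (f i) ω : ℝ) : ℂ) := by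
    intro ω
    rw [Complex.ofReal_tsum]
    congr 1
    ext f
    by_cases h : ∀ i, ω ∈ live (f i)
    · rw [Set.indicator_of_mem (by exact h), hη3]
      push_cast
      apply Finset.prod_congr rfl
      intro i _
      unfold WW
      rw [Set.indicator_of_mem (h i)]
    · rw [Set.indicator_of_notMem (by exact h)]
      push Not at h
      obtain ⟨i, hi⟩ := h
      have h3 : ∏ i, WW live pos v (f i) ω = 0 := by
        apply Finset.prod_eq_zero (Finset.mem_univ i)
        unfold WW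
        rw [Set.indicator_of_notMem hi]
      rw [h3, Complex.ofReal_zero]
  simp_rw [h2] at h1
  rw [integral_complex_ofReal] at h1
  exact_mod_cast h1

theorem no_hit {Ω : Type*} [MeasurableSpace Ω] (P : Measure Ω) [IsProbabilityMeasure P]
    (live : ℕ → Set Ω) (pos : ℕ → Ω → ℝ) (hlive : ∀ j, MeasurableSet (live j))
    (hpos : ∀ j, Measurable (pos j))
    (hulm : ∀ k : ℕ, 1 ≤ k → ∃ C : ℝ≥0∞, C ≠ ∞ ∧ ∀ x : ℝ,
      ∫⁻ ω, (∑' j, (live j ∩ pos j ⁻¹' Set.Icc x (x + 1)).indicator 1 ω) ^ k ∂P ≤ C)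
    (B : ℝ) (hB : 0 < B) (L : ℝ) (hL : 0 < L)
    (hhit : ∀ᵐ ω ∂P, ∃ j, ω ∈ live j ∧ |pos j ω| ≤ L)
    (hmim : ∀ n : ℕ, 1 ≤ n → ∀ η : 𝓢(EuclideanSpace ℝ (Fin n), ℂ),
      (∀ ξ, (𝓕 η) ξ ≠ 0 → ∀ i, |ξ i| ≤ B) →
      ∫ ω, ∑' f : Fin n ↪ ℕ, {ω | ∀ i, ω ∈ live (f i)}.indicator
        (fun ω => η (WithLp.toLp 2 fun i => pos (f i) ω)) ω ∂P =
      ∫ x : EuclideanSpace ℝ (Fin n), η x *
        ((Matrix.of fun i j : Fin n => Real.sinc (Real.pi * (x i - x j))).det : ℝ)) : False := by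
  have hp := Real.pi_pos
  -- parameters
  set b : ℝ := min (B / 4) (1 / 2) with hb
  have hb0 : 0 < b := lt_min (by linarith) (by norm_num)
  have hb1 : b ≤ B / 4 := min_le_left _ _
  have hb2 : b ≤ 1 / 2 := min_le_right _ _
  set ρ : ℝ := min (B / 4) (1 / (8 * π * L)) with hρ
  have hρ0 : 0 < ρ := lt_min (by linarith) (by positivity)
  have hρ1 : ρ ≤ B / 4 := min_le_left _ _
  have hρ2 : 2 * π * ρ * L ≤ 1 / 4 := by
    calc 2 * π * ρ * L ≤ 2 * π * (1 / (8 * π * L)) * L := by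
          gcongr
          exact min_le_right _ _
      _ = 1 / 4 := by
          field_simp
          norm_num
  set q : ℝ → ℝ := fun x => 2 * hh ρ hρ0 x with hq
  have hq0 : ∀ x, 0 ≤ q x := fun x => mul_nonneg (by norm_num) (hh_nonneg ρ hρ0 x)
  have hqc : Continuous q := continuous_const.mul (continuous_hh ρ hρ0)
  have hqI : Integrable q := (hh_integrable ρ hρ0).const_mul 2
  have hqb : ∀ x, q x ≤ 2 := by
    intro x
    have := hh_le_one ρ hρ0 x
    rw [hq]
    simp only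
    linarith
  have hqL : ∀ x, |x| ≤ L → 1 ≤ q x := by
    intro x hx
    have h1 := HH_sub_one ρ hρ0 x
    have h2 : 2 * π * ρ * |x| ≤ 2 * π * ρ * L := by gcongr
    have h3 : 3 / 4 ≤ ‖HH ρ hρ0 x‖ := by
      have h4 : ‖(1 : ℂ)‖ ≤ ‖HH ρ hρ0 x‖ + ‖HH ρ hρ0 x - 1‖ := by
        have h5 := norm_sub_le (HH ρ hρ0 x) (HH ρ hρ0 x - 1)
        rwa [sub_sub_cancel] at h5
      rw [norm_one] at h4
      linarith
    rw [hq]
    simp only
    unfold hh
    nlinarith
  have hqBL : BL (2 * ρ) (fun x => ((q x : ℝ) : ℂ)) := by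
    refine ((BL_hh ρ hρ0).const_mul 2).congr fun x => ?_
    rw [hq]
    push_cast
    rfl
  obtain ⟨lam, r, hl0, hl1, hr, htil⟩ := exists_tilted b hb0 hb2
  have hexp := exponent_tendsto r hr q hqI
  obtain ⟨n, hn1, hn⟩ := ((hexp.eventually_lt_const (by norm_num : (0 : ℝ) < 1 / 2)).and
    (eventually_ge_atTop 1)).exists
  set w : ℝ → ℝ := w0 b lam n with hw
  have hwc : Continuous w := continuous_w0 b lam n
  have hw0 : ∀ x, 0 ≤ w x := w0_nonneg b lam n
  have hw1 : ∀ x, w x ≤ 1 := w0_le_one b lam hl0 hl1 n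
  set v0 : ℝ → ℝ := fun x => w x - 1 with hv0
  set v1 : ℝ → ℝ := fun x => (w x - 1) + w x * q x with hv1
  set Ph : ℝ → ℝ := fun x => (1 - w x) + q x with hPh
  have hPh0 : ∀ x, 0 ≤ Ph x := by
    intro x
    have := hw1 x
    have := hq0 x
    rw [hPh]
    simp only
    linarith
  have hBLw : BL B (fun x => ((1 - w x : ℝ) : ℂ)) := (BL_w0 b lam hb0 n hn).mono (by linarith)
  have hBLq : BL B (fun x => ((q x : ℝ) : ℂ)) := hqBL.mono (by linarith)
  have hBLwq : BL B (fun x => ((1 - w x : ℝ) : ℂ) * ((q x : ℝ) : ℂ)) :=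
    ((BL_w0 b lam hb0 n hn).mul hqBL).mono (by linarith)
  have hBL0 : BL B (fun x => ((v0 x : ℝ) : ℂ)) := by
    refine (hBLw.const_mul (-1)).congr fun x => ?_
    rw [hv0]
    push_cast
    ring
  have hBL1 : BL B (fun x => ((v1 x : ℝ) : ℂ)) := by
    refine ((hBL0.add hBLq).add (hBLwq.const_mul (-1))).congr fun x => ?_
    rw [hv0, hv1]
    push_cast
    ring
  have hBLP : BL B (fun x => ((Ph x : ℝ) : ℂ)) := by
    refine (hBLw.add hBLq).congr fun x => ?_
    rw [hPh]
    push_cast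
    ring
  have hcast : ∀ (v : ℝ → ℝ), BL B (fun x => ((v x : ℝ) : ℂ)) → Integrable v := by
    intro v hv
    refine hv.integrable.re.congr (ae_of_all _ fun x => ?_)
    simp
  have hPhI : Integrable Ph := hcast Ph hBLP
  set A : ℝ := ∫ x, |Ph x| with hA
  have hA0 : 0 ≤ A := integral_nonneg fun _ => abs_nonneg _
  -- the process
  obtain ⟨C, hC, hdec⟩ := hBLP.decay
  have hdec' : ∀ x, Ph x ≤ C / (1 + x ^ 2) := by
    intro x
    refine le_trans (le_abs_self _) ?_
    have := hdec x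
    rwa [Complex.norm_real, Real.norm_eq_abs] at this
  have hmom : ∀ n : ℕ, 1 ≤ n →
      ∫⁻ ω, (∑' j, ENNReal.ofReal (WW live pos Ph j ω)) ^ n ∂P ≠ ∞ := fun n hn =>
    moment_lt_top P live pos hlive hpos hulm Ph C hC hdec' n hn
  have hWm : ∀ v : ℝ → ℝ, Continuous v → ∀ j, Measurable (WW live pos v j) := by
    intro v hv j
    exact (hv.measurable.comp (hpos j)).indicator (hlive j)
  have hv0c : Continuous v0 := hwc.sub continuous_const
  have hv1c : Continuous v1 := (hwc.sub continuous_const).add (hwc.mul hqc)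
  have hPhc : Continuous Ph := (continuous_const.sub hwc).add hqc
  have hle0 : ∀ j ω, |WW live pos v0 j ω| ≤ WW live pos Ph j ω := by
    intro j ω
    unfold WW
    by_cases hj : ω ∈ live j
    · rw [Set.indicator_of_mem hj, Set.indicator_of_mem hj, abs_le, hv0, hPh]
      have e1 := hw1 (pos j ω)
      have e2 := hw0 (pos j ω)
      have e3 := hq0 (pos j ω)
      constructor
      · linarith
      · linarith
    · rw [Set.indicator_of_notMem hj, Set.indicator_of_notMem hj, abs_zero]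
  have hle1 : ∀ j ω, |WW live pos v1 j ω| ≤ WW live pos Ph j ω := by
    intro j ω
    unfold WW
    by_cases hj : ω ∈ live j
    · rw [Set.indicator_of_mem hj, Set.indicator_of_mem hj, abs_le, hv1, hPh]
      have e1 := hw1 (pos j ω)
      have e2 := hw0 (pos j ω)
      have e3 := hq0 (pos j ω)
      have e4 : w (pos j ω) * q (pos j ω) ≤ q (pos j ω) := mul_le_of_le_one_left e3 e1
      have e5 : 0 ≤ w (pos j ω) * q (pos j ω) := mul_nonneg e2 e3
      constructor
      · linarith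
      · linarith
    · rw [Set.indicator_of_notMem hj, Set.indicator_of_notMem hj, abs_zero]
  have hPA : ∀ n, 1 ≤ n → ∫ ω, ∑' f : Fin n ↪ ℕ, ∏ i, WW live pos Ph (f i) ω ∂P ≤ A ^ n := by
    intro n hn
    rw [mim_prod P live pos B hmim Ph hBLP n hn]
    exact (le_abs_self _).trans (abs_Fn_le Ph hPhI n)
  obtain ⟨hI0, hD0⟩ := gen2 P (WW live pos v0) (WW live pos Ph) (hWm v0 hv0c) (hWm Ph hPhc) hle0
    hmom (Fn v0) (mim_prod P live pos B hmim v0 hBL0) (Fn_zero v0) A hA0 hPA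
  obtain ⟨hI1, hD1⟩ := gen2 P (WW live pos v1) (WW live pos Ph) (hWm v1 hv1c) (hWm Ph hPhc) hle1
    hmom (Fn v1) (mim_prod P live pos B hmim v1 hBL1) (Fn_zero v1) A hA0 hPA
  rw [← DD_ks] at hD0 hD1
  have h0u : ∀ j ω, 1 + WW live pos v0 j ω ≤ 1 := by
    intro j ω
    unfold WW
    by_cases hj : ω ∈ live j
    · rw [Set.indicator_of_mem hj, hv0]
      have e1 := hw1 (pos j ω)
      simp only
      linarith
    · rw [Set.indicator_of_notMem hj]
      simp
  set s : ℝ := 1 - (1 - lam) ^ (2 * n) / 2 with hs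
  have hpow0 : 0 < (1 - lam) ^ (2 * n) := pow_pos (by linarith) _
  have hpow1 : (1 - lam) ^ (2 * n) ≤ 1 := pow_le_one₀ (by linarith) (by linarith)
  have h0s : ∀ j ω, -s ≤ WW live pos v0 j ω := by
    intro j ω
    unfold WW
    by_cases hj : ω ∈ live j
    · rw [Set.indicator_of_mem hj, hv0]
      have e1 := w0_ge b lam hl0 hl1 n (pos j ω)
      simp only
      rw [← hw] at e1
      linarith
    · rw [Set.indicator_of_notMem hj]
      linarith
  have hcomp := proc_compare P (WW live pos v0) (WW live pos v1) (WW live pos q) (hWm q hqc)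
    (fun j ω => by
      have := h0s j ω
      linarith) h0u
    (fun j ω => Set.indicator_nonneg (fun _ _ => hq0 _) _)
    (fun j ω => by
      unfold WW
      by_cases hj : ω ∈ live j
      · rw [Set.indicator_of_mem hj, Set.indicator_of_mem hj, Set.indicator_of_mem hj, hv0, hv1]
        simp only
        ring
      · rw [Set.indicator_of_notMem hj, Set.indicator_of_notMem hj, Set.indicator_of_notMem hj]
        ring)
    (by
      filter_upwards [hhit] with ω hω
      obtain ⟨j, hj, hjL⟩ := hω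
      refine ⟨j, ?_⟩
      unfold WW
      rw [Set.indicator_of_mem hj]
      exact hqL _ hjL)
    hI0 hI1 _ _ hD0 hD1
  have hposD := proc_pos P (WW live pos v0) (hWm v0 hv0c) s (by linarith) (by linarith)
    (fun j ω => by linarith [h0u j ω]) h0s
    (by
      have h1 := hmom 1 le_rfl
      simp_rw [pow_one] at h1
      refine ne_top_of_le_ne_top h1 ?_
      apply lintegral_mono
      intro ω
      apply ENNReal.tsum_le_tsum
      intro j
      apply ENNReal.ofReal_le_ofReal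
      refine le_trans ?_ (hle0 j ω)
      exact neg_le_abs _)
    hI0 _ hD0
  have hineq := sine_ineq b lam r hb0 hl0 hl1 n hn (htil n hn) q hq0 hqc hqI 2 hqb
  have hE : Real.exp (∫ x, q x * kap r n x) < 2 := by
    have h1 : Real.exp (∫ x, q x * kap r n x) < Real.exp (1 / 2) := Real.exp_lt_exp.mpr hn1
    have h2 : Real.exp (1 / 2) < 2 := by
      have h3 : Real.exp (1 / 2) ^ 2 = Real.exp 1 := by
        rw [← Real.exp_nat_mul]
        congr 1
        norm_num
      have h4 := Real.exp_one_lt_d9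
      have h5 := Real.exp_pos (1 / 2)
      nlinarith
    linarith
  have h1 : DD ks v0 * Real.exp (∫ x, q x * kap r n x) < DD ks v0 * 2 :=
    mul_lt_mul_of_pos_left hE hposD
  have h2 : DD ks v1 ≤ DD ks v0 * Real.exp (∫ x, q x * kap r n x) := hineq
  linarith

end Q298.Gap
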