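import Pool.Agent.Q298.Gap.BL

/-!
The growth of band limited functions on a gap.
-/

set_option autoImplicit false

namespace Q298.Gap

open MeasureTheory Filter Topology ComplexConjugate Real Q298.Mim
open scoped FourierTransform SchwartzMap ContDiff

/-- The entire extension. -/
noncomputable def fz (W : ℝ → ℂ) (z : ℂ) : ℂ := ∫ t, W t * Complex.exp ((2 * π * t : ℝ) * Complex.I * z)

theorem norm_exp_fz (t : ℝ) (z : ℂ) :
    ‖Complex.exp ((2 * π * t : ℝ) * Complex.I * z)‖ = Real.exp (-(2 * π * t) * z.im) := by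
  rw [Complex.norm_exp]
  congr 1
  rw [mul_assoc, Complex.re_ofReal_mul, Complex.mul_re, Complex.I_re, Complex.I_im]
  ring

theorem norm_exp_fz_le (b : ℝ) (t : ℝ) (ht : |t| ≤ b) (z : ℂ) :
    ‖Complex.exp ((2 * π * t : ℝ) * Complex.I * z)‖ ≤ Real.exp (2 * π * b * |z.im|) := by
  rw [norm_exp_fz]
  apply Real.exp_le_exp.mpr
  have hp := Real.pi_pos
  calc -(2 * π * t) * z.im ≤ |-(2 * π * t) * z.im| := le_abs_self _
    _ = 2 * π * |t| * |z.im| := by
        rw [abs_mul, abs_neg, abs_mul, abs_of_pos (by positivity : (0 : ℝ) < 2 * π)]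
    _ ≤ 2 * π * b * |z.im| := by gcongr

theorem integrable_fz (b : ℝ) (W : ℝ → ℂ) (hW : Integrable W) (hz : ∀ t, b < |t| → W t = 0)
    (z : ℂ) : Integrable (fun t => W t * Complex.exp ((2 * π * t : ℝ) * Complex.I * z)) := by
  refine (hW.norm.mul_const (Real.exp (2 * π * b * |z.im|))).mono' ?_ ?_
  · apply hW.aestronglyMeasurable.mul
    apply Continuous.aestronglyMeasurable
    fun_prop
  · apply ae_of_all
    intro t
    rw [norm_mul]
    by_cases ht : b < |t|
    · rw [hz t ht]
      simp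
    · exact mul_le_mul_of_nonneg_left (norm_exp_fz_le b t (not_lt.mp ht) z) (norm_nonneg _)

theorem norm_fz_le (b : ℝ) (W : ℝ → ℂ) (hW : Integrable W) (hz : ∀ t, b < |t| → W t = 0)
    (z : ℂ) : ‖fz W z‖ ≤ (∫ t, ‖W t‖) * Real.exp (2 * π * b * |z.im|) := by
  unfold fz
  refine (norm_integral_le_integral_norm _).trans ?_
  rw [← integral_mul_const]
  apply integral_mono (integrable_fz b W hW hz z).norm (hW.norm.mul_const _)
  intro t
  simp only
  rw [norm_mul]
  by_cases ht : b < |t|
  · rw [hz t ht]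
    simp
  · exact mul_le_mul_of_nonneg_left (norm_exp_fz_le b t (not_lt.mp ht) z) (norm_nonneg _)

theorem differentiable_fz (b : ℝ) (W : ℝ → ℂ) (hW : Integrable W)
    (hz : ∀ t, b < |t| → W t = 0) : Differentiable ℂ (fz W) := by
  intro z0
  rcases lt_or_ge b 0 with hb | hb
  · have : fz W = fun _ => 0 := by
      ext z
      unfold fz
      apply integral_eq_zero_of_ae
      apply ae_of_all
      intro t
      simp only [Pi.zero_apply]
      rw [hz t (lt_of_lt_of_le hb (abs_nonneg _)), zero_mul]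
    rw [this]
    exact differentiableAt_const _
  have h := hasDerivAt_integral_of_dominated_loc_of_deriv_le (μ := volume)
    (F := fun (z : ℂ) (t : ℝ) => W t * Complex.exp ((2 * π * t : ℝ) * Complex.I * z))
    (F' := fun (z : ℂ) (t : ℝ) => W t * (Complex.exp ((2 * π * t : ℝ) * Complex.I * z) *
      ((2 * π * t : ℝ) * Complex.I)))
    (x₀ := z0) (s := Metric.ball z0 1)
    (bound := fun t => ‖W t‖ * (Real.exp (2 * π * b * (|z0.im| + 1)) * (2 * π * b)))
    (Metric.ball_mem_nhds z0 one_pos)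
    (Eventually.of_forall fun z => (integrable_fz b W hW hz z).aestronglyMeasurable)
    (integrable_fz b W hW hz z0)
    (by
      apply hW.aestronglyMeasurable.mul
      apply Continuous.aestronglyMeasurable
      fun_prop)
    (by
      apply ae_of_all
      intro t z hzb
      rw [norm_mul]
      by_cases ht : b < |t|
      · rw [hz t ht]
        simp
      · apply mul_le_mul_of_nonneg_left _ (norm_nonneg _)
        rw [norm_mul]
        rw [not_lt] at ht
        have hp := Real.pi_pos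
        apply mul_le_mul
        · refine (norm_exp_fz_le b t ht z).trans ?_
          apply Real.exp_le_exp.mpr
          have h1 : |z.im| ≤ |z0.im| + 1 := by
            have h2 : |z.im - z0.im| ≤ ‖z - z0‖ := by
              rw [← Complex.sub_im]
              exact Complex.abs_im_le_norm _
            rw [Metric.mem_ball, dist_eq_norm] at hzb
            have h3 := abs_sub_abs_le_abs_sub z.im z0.im
            linarith
          gcongr
        · rw [norm_mul, Complex.norm_real, Complex.norm_I, mul_one, Real.norm_eq_abs, abs_mul,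
            abs_of_pos (by positivity : (0 : ℝ) < 2 * π)]
          gcongr
        · exact norm_nonneg _
        · exact (Real.exp_pos _).le)
    (hW.norm.mul_const _)
    (by
      apply ae_of_all
      intro t z _
      apply HasDerivAt.const_mul
      have h1 : HasDerivAt (fun z : ℂ => ((2 * π * t : ℝ) : ℂ) * Complex.I * z)
          (((2 * π * t : ℝ) : ℂ) * Complex.I) z := by
        simpa using (hasDerivAt_id z).const_mul (((2 * π * t : ℝ) : ℂ) * Complex.I)
      exact h1.cexp)
  exact h.2.differentiableAt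

theorem growth {b : ℝ} (hb : 0 ≤ b) {f : ℝ → ℂ} (hf : BL b f) (ρ : ℝ) (hρ : 0 < ρ) (M : ℝ)
    (hM : ∀ y, ρ ≤ |y| → ‖f y‖ ≤ M) (x : ℝ) : ‖f x‖ ≤ M * Real.exp (2 * π * b * ρ) := by
  have hp := Real.pi_pos
  have hM0 : 0 ≤ M := (norm_nonneg _).trans (hM ρ (le_abs_self _))
  have hE1 : 1 ≤ Real.exp (2 * π * b * ρ) := Real.one_le_exp (by positivity)
  rcases le_or_gt ρ |x| with hx | hx
  · refine (hM x hx).trans ?_
    nlinarith
  obtain ⟨W, hWs, hWz, hWI, hWf⟩ := hf.exists_inv
  have hfz : ∀ y : ℝ, fz W y = f y := by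
    intro y
    rw [← hWf, fourierInv_ee]
    unfold fz
    congr 1
    ext t
    rw [mul_comm]
    congr 1
    rw [ee_eq]
    congr 1
    push_cast
    ring
  set H : ℂ → ℂ := fun ζ => fz W (ρ * Complex.sin ζ) *
    Complex.exp (-(2 * π * b * ρ : ℝ) * Complex.cos ζ) with hH
  have hHd : Differentiable ℂ H := by
    apply Differentiable.mul
    · exact (differentiable_fz b W hWI hWz).comp (by fun_prop)
    · fun_prop
  have hre : ∀ ζ : ℂ, (Complex.cos ζ).re = Real.cos ζ.re * Real.cosh ζ.im := by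
    intro ζ
    rw [Complex.cos_eq ζ]
    simp [← Complex.ofReal_cos, ← Complex.ofReal_cosh, ← Complex.ofReal_sin, ← Complex.ofReal_sinh]
  have him : ∀ ζ : ℂ, (Complex.sin ζ).im = Real.cos ζ.re * Real.sinh ζ.im := by
    intro ζ
    rw [Complex.sin_eq ζ]
    simp [← Complex.ofReal_cos, ← Complex.ofReal_cosh, ← Complex.ofReal_sin, ← Complex.ofReal_sinh]
  have hexpn : ∀ ζ : ℂ, ‖Complex.exp (-(2 * π * b * ρ : ℝ) * Complex.cos ζ)‖ =
      Real.exp (-(2 * π * b * ρ) * (Real.cos ζ.re * Real.cosh ζ.im)) := by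
    intro ζ
    rw [Complex.norm_exp, ← Complex.ofReal_neg, Complex.re_ofReal_mul, hre]
  have hedge : ∀ ζ : ℂ, (Complex.sin ζ).im = 0 → ρ ≤ |ρ * (Complex.sin ζ).re| →
      Real.cos ζ.re = 0 → ‖H ζ‖ ≤ M := by
    intro ζ h1 h2 h3
    rw [hH]
    simp only
    rw [norm_mul, hexpn, h3, zero_mul, mul_zero, Real.exp_zero, mul_one]
    have h4 : (ρ : ℂ) * Complex.sin ζ = ((ρ * (Complex.sin ζ).re : ℝ) : ℂ) := by
      apply Complex.ext
      · simp
      · simp [h1]
    rw [h4, hfz]
    exact hM _ h2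
  have hsinre : ∀ ζ : ℂ, (Complex.sin ζ).re = Real.sin ζ.re * Real.cosh ζ.im := by
    intro ζ
    rw [Complex.sin_eq ζ]
    simp [← Complex.ofReal_cos, ← Complex.ofReal_cosh, ← Complex.ofReal_sin, ← Complex.ofReal_sinh]
  have hbd : ∀ ζ : ℂ, -(π / 2) ≤ ζ.re → ζ.re ≤ π / 2 → ‖H ζ‖ ≤ ∫ t, ‖W t‖ := by
    intro ζ h1 h2
    have hc : 0 ≤ Real.cos ζ.re := Real.cos_nonneg_of_neg_pi_div_two_le_of_le h1 h2
    have hWn : 0 ≤ ∫ t, ‖W t‖ := integral_nonneg fun _ => norm_nonneg _
    rw [hH]
    simp only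
    rw [norm_mul, hexpn]
    calc ‖fz W (ρ * Complex.sin ζ)‖ * Real.exp (-(2 * π * b * ρ) * (Real.cos ζ.re * Real.cosh ζ.im))
        ≤ ((∫ t, ‖W t‖) * Real.exp (2 * π * b * |((ρ : ℂ) * Complex.sin ζ).im|)) *
          Real.exp (-(2 * π * b * ρ) * (Real.cos ζ.re * Real.cosh ζ.im)) := by
          apply mul_le_mul_of_nonneg_right (norm_fz_le b W hWI hWz _) (Real.exp_pos _).le
      _ = (∫ t, ‖W t‖) * Real.exp (2 * π * b * |((ρ : ℂ) * Complex.sin ζ).im| +
          -(2 * π * b * ρ) * (Real.cos ζ.re * Real.cosh ζ.im)) := by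
          rw [mul_assoc, ← Real.exp_add]
      _ ≤ (∫ t, ‖W t‖) * 1 := by
          apply mul_le_mul_of_nonneg_left _ hWn
          rw [Real.exp_le_one_iff, Complex.im_ofReal_mul, him, abs_mul, abs_mul, abs_of_pos hρ,
            abs_of_nonneg hc]
          have h5 : |Real.sinh ζ.im| ≤ Real.cosh ζ.im := by
            rw [← Real.cosh_abs ζ.im, Real.abs_sinh]
            exact (Real.sinh_lt_cosh _).le
          have h6 : 0 ≤ 2 * π * b * ρ * Real.cos ζ.re := by positivity
          nlinarith [mul_le_mul_of_nonneg_left h5 h6]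
      _ = _ := mul_one _
  set ζ0 : ℂ := ((Real.arcsin (x / ρ) : ℝ) : ℂ) with hζ0
  have hxr : |x / ρ| < 1 := by
    rw [abs_div, abs_of_pos hρ, div_lt_one hρ]
    exact hx
  have hsin0 : (ρ : ℂ) * Complex.sin ζ0 = ((x : ℝ) : ℂ) := by
    rw [hζ0, ← Complex.ofReal_sin, Real.sin_arcsin (by linarith [(abs_lt.mp hxr).1])
      (by linarith [(abs_lt.mp hxr).2]), ← Complex.ofReal_mul]
    congr 1
    field_simp
  have hPL := PhragmenLindelof.vertical_strip (f := H) (a := -(π / 2)) (b := π / 2) (C := M)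
    hHd.diffContOnCl
    ⟨0, by
      have : π / (π / 2 - -(π / 2)) = 1 := by
        field_simp
        norm_num
      rw [this]
      exact zero_lt_one, 0, by
      apply Asymptotics.IsBigO.of_bound (∫ t, ‖W t‖)
      apply mem_inf_of_right
      intro ζ hζ
      rw [Set.mem_preimage, Set.mem_Ioo] at hζ
      simp only [zero_mul, Real.exp_zero, norm_one, mul_one, Set.mem_ofPred_eq]
      exact hbd ζ hζ.1.le hζ.2.le⟩
    (fun ζ hζ => hedge ζ (by rw [him, hζ, Real.cos_neg, Real.cos_pi_div_two, zero_mul]) (by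
        rw [hsinre, hζ, Real.sin_neg, Real.sin_pi_div_two, abs_mul, abs_of_pos hρ, abs_mul,
          abs_neg, abs_one, one_mul, abs_of_pos (Real.cosh_pos _)]
        have := Real.one_le_cosh ζ.im
        nlinarith) (by rw [hζ, Real.cos_neg, Real.cos_pi_div_two]))
    (fun ζ hζ => hedge ζ (by rw [him, hζ, Real.cos_pi_div_two, zero_mul]) (by
        rw [hsinre, hζ, Real.sin_pi_div_two, abs_mul, abs_of_pos hρ, abs_mul,
          abs_one, one_mul, abs_of_pos (Real.cosh_pos _)]
        have := Real.one_le_cosh ζ.im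
        nlinarith) (by rw [hζ, Real.cos_pi_div_two]))
    (z := ζ0)
    (by
      rw [hζ0, Complex.ofReal_re]
      exact Real.neg_pi_div_two_le_arcsin _)
    (by
      rw [hζ0, Complex.ofReal_re]
      exact Real.arcsin_le_pi_div_two _)
  rw [hH] at hPL
  simp only at hPL
  rw [norm_mul, hexpn, hsin0, hfz] at hPL
  have h7 : -(2 * π * b * ρ) * (Real.cos ζ0.re * Real.cosh ζ0.im) ≥ -(2 * π * b * ρ) := by
    rw [hζ0, Complex.ofReal_re, Complex.ofReal_im, Real.cosh_zero, mul_one]
    have h8 := Real.cos_le_one (Real.arcsin (x / ρ))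
    have h9 : 0 ≤ 2 * π * b * ρ := by positivity
    nlinarith
  have h10 := Real.exp_le_exp.mpr h7
  have h11 : ‖f x‖ * Real.exp (-(2 * π * b * ρ)) ≤ M :=
    (mul_le_mul_of_nonneg_left h10 (norm_nonneg _)).trans hPL
  rw [Real.exp_neg] at h11
  rw [← div_eq_mul_inv, div_le_iff₀ (Real.exp_pos _)] at h11
  exact h11

end Q298.Gap
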