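import Pool.Agent.Q298.Mim.Proc

/-!
The expectation of the products over the first points of a process, for a signed function.
-/

set_option autoImplicit false

namespace Q298.Gap

open Finset MeasureTheory Filter Topology Q298.Mim
open scoped ENNReal

theorem gen2 {Ω : Type*} [MeasurableSpace Ω] (P : Measure Ω) [IsProbabilityMeasure P]
    (W Ph : ℕ → Ω → ℝ) (hWm : ∀ j, Measurable (W j)) (hPm : ∀ j, Measurable (Ph j))
    (hWP : ∀ j ω, |W j ω| ≤ Ph j ω)
    (hmom : ∀ n : ℕ, 1 ≤ n → ∫⁻ ω, (∑' j, ENNReal.ofReal (Ph j ω)) ^ n ∂P ≠ ∞)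
    (F : ℕ → ℝ) (hF : ∀ n, 1 ≤ n → ∫ ω, ∑' f : Fin n ↪ ℕ, ∏ i, W (f i) ω ∂P = F n)
    (hF0 : F 0 = 1) (A : ℝ) (_hA0 : 0 ≤ A)
    (hA : ∀ n, 1 ≤ n → ∫ ω, ∑' f : Fin n ↪ ℕ, ∏ i, Ph (f i) ω ∂P ≤ A ^ n) :
    (∀ M, Integrable (fun ω => ∏ j : Fin M, (1 + W j ω)) P) ∧
    Tendsto (fun M : ℕ => ∫ ω, ∏ j : Fin M, (1 + W j ω) ∂P) atTop
      (𝓝 (∑' n : ℕ, F n / n.factorial)) := by
  classical
  have hP0 : ∀ j ω, 0 ≤ Ph j ω := fun j ω => (abs_nonneg _).trans (hWP j ω)
  have hprod : ∀ (n : ℕ) (f : Fin n → ℕ) ω, |∏ i, W (f i) ω| ≤ ∏ i, Ph (f i) ω := by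
    intro n f ω
    rw [Finset.abs_prod]
    exact Finset.prod_le_prod (fun _ _ => abs_nonneg _) fun i _ => hWP _ _
  -- products
  have ham : ∀ (n : ℕ) (f : Fin n → ℕ), Measurable fun ω => ∏ i, W (f i) ω := by
    intro n f
    exact Finset.measurable_fun_prod _ fun i _ => hWm _
  have hpm : ∀ (n : ℕ) (f : Fin n → ℕ), Measurable fun ω => ∏ i, Ph (f i) ω := by
    intro n f
    exact Finset.measurable_fun_prod _ fun i _ => hPm _
  have hlint : ∀ n : ℕ, 1 ≤ n →
      ∑' f : Fin n ↪ ℕ, ∫⁻ ω, ENNReal.ofReal (∏ i, Ph (f i) ω) ∂P ≠ ∞ := by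
    intro n hn
    rw [← lintegral_tsum (fun f : Fin n ↪ ℕ => (hpm n f).ennreal_ofReal.aemeasurable)]
    refine ne_top_of_le_ne_top (hmom n hn) ?_
    apply lintegral_mono
    intro ω
    have h1 : ∀ f : Fin n ↪ ℕ, ENNReal.ofReal (∏ i, Ph (f i) ω) =
        ∏ i, ENNReal.ofReal (Ph (f i) ω) := by
      intro f
      rw [ENNReal.ofReal_prod_of_nonneg]
      intro i _
      exact hP0 _ _
    simp_rw [h1]
    exact tsum_emb_le n (fun j => ENNReal.ofReal (Ph j ω))
  have hintP : ∀ (n : ℕ), 1 ≤ n → ∀ (f : Fin n ↪ ℕ), Integrable (fun ω => ∏ i, Ph (f i) ω) P := by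
    intro n hn f
    refine ⟨(hpm n f).aestronglyMeasurable, ?_⟩
    rw [hasFiniteIntegral_iff_ofReal (ae_of_all _ fun ω => prod_nonneg fun i _ => hP0 _ _)]
    exact lt_top_iff_ne_top.mpr (ENNReal.ne_top_of_tsum_ne_top (hlint n hn) f)
  have hinte : ∀ (n : ℕ), 1 ≤ n → ∀ (f : Fin n ↪ ℕ), Integrable (fun ω => ∏ i, W (f i) ω) P := by
    intro n hn f
    exact (hintP n hn f).mono' (ham n f).aestronglyMeasurable (ae_of_all _ fun ω => hprod n f ω)
  set E : (n : ℕ) → (Fin n ↪ ℕ) → ℝ := fun n f => ∫ ω, ∏ i, W (f i) ω ∂P with hE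
  set EP : (n : ℕ) → (Fin n ↪ ℕ) → ℝ := fun n f => ∫ ω, ∏ i, Ph (f i) ω ∂P with hEP
  have hEP0 : ∀ n f, 0 ≤ EP n f :=
    fun n f => integral_nonneg fun ω => prod_nonneg fun i _ => hP0 _ _
  have hEE : ∀ n, 1 ≤ n → ∀ f, |E n f| ≤ EP n f := by
    intro n hn f
    rw [← Real.norm_eq_abs]
    exact norm_integral_le_of_norm_le (hintP n hn f) (ae_of_all _ fun ω => hprod n f ω)
  have hEPsum : ∀ n, 1 ≤ n → HasSum (EP n) (∫ ω, ∑' f : Fin n ↪ ℕ, ∏ i, Ph (f i) ω ∂P) := by
    intro n hn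
    have h1 : ∀ f : Fin n ↪ ℕ, ∫⁻ ω, ‖∏ i, Ph (f i) ω‖ₑ ∂P =
        ∫⁻ ω, ENNReal.ofReal (∏ i, Ph (f i) ω) ∂P := by
      intro f
      apply lintegral_congr
      intro ω
      rw [Real.enorm_of_nonneg (prod_nonneg fun i _ => hP0 _ _)]
    have h2 : ∑' f : Fin n ↪ ℕ, ∫⁻ ω, ‖∏ i, Ph (f i) ω‖ₑ ∂P ≠ ∞ := by
      simp_rw [h1]
      exact hlint n hn
    have h3 := integral_tsum (μ := P) (f := fun (f : Fin n ↪ ℕ) ω => ∏ i, Ph (f i) ω)
      (fun f => (hpm n f).aestronglyMeasurable) h2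
    rw [h3]
    apply Summable.hasSum
    have h4 : ∀ f, EP n f = (∫⁻ ω, ENNReal.ofReal (∏ i, Ph (f i) ω) ∂P).toReal := by
      intro f
      rw [hEP]
      simp only
      rw [integral_eq_lintegral_of_nonneg_ae
        (ae_of_all _ fun ω => prod_nonneg fun i _ => hP0 _ _) (hpm n f).aestronglyMeasurable]
    change Summable fun f => EP n f
    simp_rw [h4]
    exact ENNReal.summable_toReal (hlint n hn)
  have hEsum : ∀ n, 1 ≤ n → HasSum (E n) (F n) := by
    intro n hn
    have h2 : ∑' f : Fin n ↪ ℕ, ∫⁻ ω, ‖∏ i, W (f i) ω‖ₑ ∂P ≠ ∞ := by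
      refine ne_top_of_le_ne_top (hlint n hn) ?_
      apply ENNReal.tsum_le_tsum
      intro f
      apply lintegral_mono
      intro ω
      simp only
      rw [← ofReal_norm]
      exact ENNReal.ofReal_le_ofReal (hprod n f ω)
    have h3 := integral_tsum (μ := P) (f := fun (f : Fin n ↪ ℕ) ω => ∏ i, W (f i) ω)
      (fun f => (ham n f).aestronglyMeasurable) h2
    rw [hF n hn] at h3
    rw [h3]
    apply Summable.hasSum
    exact Summable.of_norm_bounded (hEPsum n hn).summable (hEE n hn)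
  -- truncated factorial moments
  set T : ℕ → ℕ → ℝ := fun M n => ∑ f : Fin n ↪ Fin M, E n (f.trans Fin.valEmbedding) with hT
  have hTimg : ∀ (G : (n : ℕ) → (Fin n ↪ ℕ) → ℝ) M n,
      ∑ f : Fin n ↪ Fin M, G n (f.trans Fin.valEmbedding) =
      ∑ g ∈ (univ : Finset (Fin n ↪ Fin M)).map
      ⟨fun f => f.trans Fin.valEmbedding, fun f g h => by
        ext i
        exact congrArg (fun e : Fin n ↪ ℕ => e i) h⟩, G n g := by
    intro G M n
    rw [sum_map]
    rfl
  have hF0' : ∀ M, T M 0 = 1 := by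
    intro M
    rw [hT, hE]
    simp
  have hTle : ∀ M n, |T M n| ≤ A ^ n := by
    intro M n
    rcases Nat.eq_zero_or_pos n with hn | hn
    · subst hn
      rw [hF0']
      simp
    · calc |T M n| ≤ ∑ f : Fin n ↪ Fin M, |E n (f.trans Fin.valEmbedding)| :=
            Finset.abs_sum_le_sum_abs _ _
        _ ≤ ∑ f : Fin n ↪ Fin M, EP n (f.trans Fin.valEmbedding) :=
            Finset.sum_le_sum fun f _ => hEE n hn _
        _ ≤ ∫ ω, ∑' f : Fin n ↪ ℕ, ∏ i, Ph (f i) ω ∂P := by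
            rw [hTimg EP]
            exact sum_le_hasSum _ (fun g _ => hEP0 _ _) (hEPsum n hn)
        _ ≤ A ^ n := hA n hn
  have hTlim : ∀ n, Tendsto (fun M => T M n) atTop (𝓝 (F n)) := by
    intro n
    rcases Nat.eq_zero_or_pos n with hn | hn
    · subst hn
      simp_rw [hF0', hF0]
      exact tendsto_const_nhds
    · have h0 : ∀ M, T M n = ∑ g ∈ (univ : Finset (Fin n ↪ Fin M)).map
          ⟨fun f => f.trans Fin.valEmbedding, fun f g h => by
          ext i
          exact congrArg (fun e : Fin n ↪ ℕ => e i) h⟩, E n g := fun M => hTimg E M n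
      simp_rw [h0]
      have h1 : Tendsto (fun M => (univ : Finset (Fin n ↪ Fin M)).map
          (⟨fun f => f.trans Fin.valEmbedding, fun f g h => by
            ext i
            exact congrArg (fun e : Fin n ↪ ℕ => e i) h⟩ : (Fin n ↪ Fin M) ↪ (Fin n ↪ ℕ)))
          atTop atTop := by
        apply tendsto_atTop_finset_of_monotone
        · intro M M' hMM g hg
          rw [Finset.mem_map] at hg ⊢
          obtain ⟨f, _, rfl⟩ := hg
          refine ⟨f.trans (Fin.castLEEmb hMM), mem_univ _, ?_⟩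
          ext i
          rfl
        · intro g
          refine ⟨(univ.sup fun i => g i) + 1, ?_⟩
          rw [Finset.mem_map]
          have hlt : ∀ i, g i < (univ.sup fun i => g i) + 1 := fun i =>
            Nat.lt_succ_of_le (le_sup (f := fun i => g i) (mem_univ i))
          refine ⟨⟨fun i => ⟨g i, hlt i⟩, fun a b hab => g.injective (by
            simpa using congrArg Fin.val hab)⟩, mem_univ _, ?_⟩
          ext i
          rfl
      exact (hEsum n hn).comp h1
  -- expectation of the elementary symmetric functions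
  have hes : ∀ M n, Integrable (fun ω => es n (fun j : Fin M => W j ω)) P ∧
      ∫ ω, es n (fun j : Fin M => W j ω) ∂P = T M n := by
    intro M n
    have hI : ∀ f : Fin n ↪ Fin M, Integrable (fun ω => ∏ k, W (f k : Fin M) ω) P := by
      intro f
      rcases Nat.eq_zero_or_pos n with hn | hn
      · subst hn
        simp
      · exact hinte n hn (f.trans Fin.valEmbedding)
    constructor
    · unfold es
      exact integrable_finsetSum _ fun f _ => hI f
    · unfold es
      rw [integral_finsetSum _ fun f _ => hI f]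
      rfl
  have hexp : ∀ M ω, ∏ j : Fin M, (1 + W j ω) =
      ∑ n ∈ range (M + 1), (1 : ℝ) / n.factorial * es n (fun j : Fin M => W j ω) := by
    intro M ω
    have h := prod_one_add_eq 1 (fun j : Fin M => W j ω) (M + 1) (by simp)
    simp only [one_mul, one_pow] at h
    exact h
  -- the generating function of the first `M` points
  have hgen : ∀ M, ∫ ω, ∏ j : Fin M, (1 + W j ω) ∂P = ∑' n : ℕ, T M n / n.factorial := by
    intro M
    simp_rw [hexp]
    rw [integral_finsetSum _ fun n _ => (hes M n).1.const_mul _]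
    rw [tsum_eq_sum (s := range (M + 1))]
    · apply sum_congr rfl
      intro n _
      rw [integral_const_mul, (hes M n).2]
      ring
    · intro n hn
      rw [mem_range, not_lt] at hn
      have h2 : T M n = 0 := by
        rw [← (hes M n).2]
        have h3 : ∀ ω, es n (fun j : Fin M => W j ω) = 0 := by
          intro ω
          apply es_zero_of_lt
          rw [Fintype.card_fin]
          omega
        simp_rw [h3]
        simp
      rw [h2, zero_div]
  refine ⟨fun M => ?_, ?_⟩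
  · simp_rw [hexp]
    exact integrable_finsetSum _ fun n _ => (hes M n).1.const_mul _
  · simp_rw [hgen]
    apply tendsto_tsum_of_dominated_convergence (bound := fun n : ℕ => A ^ n / n.factorial)
      (Real.summable_pow_div_factorial A)
    · intro n
      exact (hTlim n).div_const _
    · apply Eventually.of_forall
      intro M n
      rw [norm_div, Real.norm_eq_abs, RCLike.norm_natCast]
      have h3 : (0 : ℝ) < n.factorial := by positivity
      rw [div_le_div_iff_of_pos_right h3]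
      exact hTle M n

theorem one_add_sum_le {κ : Type*} (s : Finset κ) (q : κ → ℝ) (hq : ∀ i, 0 ≤ q i) :
    1 + ∑ i ∈ s, q i ≤ ∏ i ∈ s, (1 + q i) := by
  classical
  induction s using Finset.induction_on with
  | empty => simp
  | insert a s ha ih =>
    rw [Finset.sum_insert ha, Finset.prod_insert ha]
    have h1 : 0 ≤ ∑ i ∈ s, q i := Finset.sum_nonneg fun i _ => hq i
    have h2 := hq a
    nlinarith [mul_le_mul_of_nonneg_left ih h2, mul_nonneg h2 h1]

/-- Comparison of two products. -/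
theorem proc_compare {Ω : Type*} [MeasurableSpace Ω] (P : Measure Ω) [IsProbabilityMeasure P]
    (W0 W1 Q : ℕ → Ω → ℝ) (hQm : ∀ j, Measurable (Q j))
    (h0l : ∀ j ω, 0 ≤ 1 + W0 j ω) (h0u : ∀ j ω, 1 + W0 j ω ≤ 1)
    (hQ0 : ∀ j ω, 0 ≤ Q j ω) (h1 : ∀ j ω, 1 + W1 j ω = (1 + W0 j ω) * (1 + Q j ω))
    (hQ1 : ∀ᵐ ω ∂P, ∃ j, 1 ≤ Q j ω)
    (hI0 : ∀ M, Integrable (fun ω => ∏ j : Fin M, (1 + W0 j ω)) P)
    (hI1 : ∀ M, Integrable (fun ω => ∏ j : Fin M, (1 + W1 j ω)) P)
    (D0 D1 : ℝ) (hD0 : Tendsto (fun M : ℕ => ∫ ω, ∏ j : Fin M, (1 + W0 j ω) ∂P) atTop (𝓝 D0))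
    (hD1 : Tendsto (fun M : ℕ => ∫ ω, ∏ j : Fin M, (1 + W1 j ω) ∂P) atTop (𝓝 D1)) :
    2 * D0 ≤ D1 := by
  set R : ℕ → Ω → ℝ := fun M ω => 1 - min (∑ j : Fin M, Q j ω) 1 with hR
  have hRm : ∀ M, Measurable (R M) := by
    intro M
    apply measurable_const.sub
    apply Measurable.min _ measurable_const
    exact Finset.measurable_fun_sum _ fun j _ => hQm _
  have hR0 : ∀ M ω, 0 ≤ R M ω := by
    intro M ω
    have := min_le_right (∑ j : Fin M, Q j ω) 1
    rw [hR]
    simp only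
    linarith
  have hS0 : ∀ M ω, 0 ≤ ∑ j : Fin M, Q j ω := fun M ω => Finset.sum_nonneg fun j _ => hQ0 _ _
  have hR1 : ∀ M ω, R M ω ≤ 1 := by
    intro M ω
    have := le_min (hS0 M ω) zero_le_one
    rw [hR]
    simp only
    linarith
  have hRI : ∀ M, Integrable (R M) P := by
    intro M
    refine (integrable_const (1 : ℝ)).mono' (hRm M).aestronglyMeasurable ?_
    apply ae_of_all
    intro ω
    rw [Real.norm_of_nonneg (hR0 M ω)]
    exact hR1 M ω
  have hRlim : Tendsto (fun M => ∫ ω, R M ω ∂P) atTop (𝓝 0) := by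
    have h0 : (0 : ℝ) = ∫ _ω : Ω, (0 : ℝ) ∂P := by simp
    rw [h0]
    apply tendsto_integral_of_dominated_convergence (fun _ => (1 : ℝ))
    · intro M
      exact (hRm M).aestronglyMeasurable
    · exact integrable_const _
    · intro M
      apply ae_of_all
      intro ω
      rw [Real.norm_of_nonneg (hR0 M ω)]
      exact hR1 M ω
    · filter_upwards [hQ1] with ω hω
      obtain ⟨j, hj⟩ := hω
      refine tendsto_const_nhds.congr' ?_
      filter_upwards [eventually_gt_atTop j] with M hM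
      have h2 : 1 ≤ ∑ i : Fin M, Q i ω := by
        refine hj.trans ?_
        exact Finset.single_le_sum (f := fun i : Fin M => Q i ω) (fun i _ => hQ0 _ _)
          (mem_univ (⟨j, hM⟩ : Fin M))
      rw [hR]
      simp only
      rw [min_eq_right h2, sub_self]
  have hkey : ∀ M : ℕ, 2 * (∫ ω, ∏ j : Fin M, (1 + W0 j ω) ∂P) - ∫ ω, R M ω ∂P ≤
      ∫ ω, ∏ j : Fin M, (1 + W1 j ω) ∂P := by
    intro M
    rw [← integral_const_mul, ← integral_sub ((hI0 M).const_mul 2) (hRI M)]
    apply integral_mono (((hI0 M).const_mul 2).sub (hRI M)) (hI1 M)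
    intro ω
    simp only [Pi.sub_apply]
    simp_rw [h1]
    rw [Finset.prod_mul_distrib]
    set p : ℝ := ∏ j : Fin M, (1 + W0 j ω) with hp
    have hp0 : 0 ≤ p := Finset.prod_nonneg fun j _ => h0l _ _
    have hp1 : p ≤ 1 := Finset.prod_le_one (fun j _ => h0l _ _) fun j _ => h0u _ _
    have hq : 1 + ∑ j : Fin M, Q j ω ≤ ∏ j : Fin M, (1 + Q j ω) :=
      one_add_sum_le univ (fun j : Fin M => Q j ω) fun j => hQ0 _ _
    have hr : R M ω = 1 - min (∑ j : Fin M, Q j ω) 1 := rfl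
    have hmin := min_le_left (∑ j : Fin M, Q j ω) 1
    have h3 : p * (1 + ∑ j : Fin M, Q j ω) ≤ p * ∏ j : Fin M, (1 + Q j ω) :=
      mul_le_mul_of_nonneg_left hq hp0
    have h4 : p * R M ω ≤ R M ω := mul_le_of_le_one_left (hR0 M ω) hp1
    have h5 : p * min (∑ j : Fin M, Q j ω) 1 ≤ p * ∑ j : Fin M, Q j ω :=
      mul_le_mul_of_nonneg_left hmin hp0
    have h6 : p * R M ω = p - p * min (∑ j : Fin M, Q j ω) 1 := by
      rw [hr]
      ring
    linarith
  have hlim := (hD0.const_mul 2).sub hRlim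
  rw [sub_zero] at hlim
  exact le_of_tendsto_of_tendsto' hlim hD1 hkey

/-- Positivity. -/
theorem proc_pos {Ω : Type*} [MeasurableSpace Ω] (P : Measure Ω) [IsProbabilityMeasure P]
    (W0 : ℕ → Ω → ℝ) (hm : ∀ j, Measurable (W0 j)) (s : ℝ) (hs0 : 0 < s) (hs1 : s < 1)
    (h0 : ∀ j ω, W0 j ω ≤ 0) (h0s : ∀ j ω, -s ≤ W0 j ω)
    (hfin : ∫⁻ ω, (∑' j, ENNReal.ofReal (-W0 j ω)) ∂P ≠ ∞)
    (hI0 : ∀ M, Integrable (fun ω => ∏ j : Fin M, (1 + W0 j ω)) P)
    (D0 : ℝ) (hD0 : Tendsto (fun M : ℕ => ∫ ω, ∏ j : Fin M, (1 + W0 j ω) ∂P) atTop (𝓝 D0)) :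
    0 < D0 := by
  set c : ℝ := -Real.log (1 - s) / s with hc
  have hc0 : 0 ≤ c := by
    rw [hc]
    apply div_nonneg _ hs0.le
    rw [neg_nonneg]
    exact Real.log_nonpos (by linarith) (by linarith)
  set Y : Ω → ℝ := fun ω => (∑' j, ENNReal.ofReal (-W0 j ω)).toReal with hY
  have hYm : Measurable Y :=
    (Measurable.tsum fun j => (hm j).neg.ennreal_ofReal).ennreal_toReal
  have hY0 : ∀ ω, 0 ≤ Y ω := fun ω => ENNReal.toReal_nonneg
  have hYfin : ∀ᵐ ω ∂P, ∑' j, ENNReal.ofReal (-W0 j ω) ≠ ∞ := by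
    have h2 := ae_lt_top (Measurable.tsum fun j => (hm j).neg.ennreal_ofReal) hfin
    filter_upwards [h2] with ω hω using hω.ne
  have hexpI : Integrable (fun ω => Real.exp (-c * Y ω)) P := by
    refine Integrable.mono' (integrable_const (1 : ℝ))
      (by fun_prop) ?_
    apply ae_of_all
    intro ω
    rw [Real.norm_of_nonneg (Real.exp_pos _).le, Real.exp_le_one_iff]
    have := mul_nonneg hc0 (hY0 ω)
    linarith
  have hpos : 0 < ∫ ω, Real.exp (-c * Y ω) ∂P := integral_exp_pos hexpI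
  refine lt_of_lt_of_le hpos ?_
  apply ge_of_tendsto hD0
  apply Eventually.of_forall
  intro M
  apply integral_mono_ae hexpI (hI0 M)
  filter_upwards [hYfin] with ω h2
  have h3 : ∑ j : Fin M, -W0 j ω ≤ Y ω := by
    rw [hY]
    simp only
    have h4 : ENNReal.ofReal (∑ j : Fin M, -W0 j ω) ≤ ∑' j, ENNReal.ofReal (-W0 j ω) := by
      rw [ENNReal.ofReal_sum_of_nonneg fun i _ => by linarith [h0 i ω]]
      rw [Fin.sum_univ_eq_sum_range (fun j => ENNReal.ofReal (-W0 j ω)) M]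
      exact ENNReal.sum_le_tsum _
    rw [← ENNReal.ofReal_le_iff_le_toReal h2]
    exact h4
  calc Real.exp (-c * Y ω) ≤ Real.exp (-c * ∑ j : Fin M, -W0 j ω) := by
        apply Real.exp_le_exp.mpr
        nlinarith
    _ = ∏ j : Fin M, Real.exp (-c * -W0 j ω) := by
        rw [mul_sum, Real.exp_sum]
    _ ≤ ∏ j : Fin M, (1 + W0 j ω) := by
        apply Finset.prod_le_prod
        · intro j _
          exact (Real.exp_pos _).le
        · intro j _
          have h5 := exp_le_one_sub s (-W0 j ω / s) hs1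
            (div_nonneg (by linarith [h0 j ω]) hs0.le)
            (by rw [div_le_one hs0]; linarith [h0s j ω])
          have h6 : s * (-W0 j ω / s) = -W0 j ω := by field_simp
          have h7 : -(-Real.log (1 - s)) * (-W0 j ω / s) = -c * -W0 j ω := by
            rw [hc]
            ring
          rw [h6, h7] at h5
          linarith

end Q298.Gap
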